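import Pool.Agent.H90.Q5.Chain

/-!
# The lower bound for the polynomial
-/

namespace Pool.Agent.H90.Q5

variable {A B : Type} [CommRing A] [CommRing B]

theorem V_le : ∀ p ∈ V, p.2.1 ≤ 8 ∧ p.2.2.1 ≤ 8 ∧ p.2.2.2.1 ≤ 8 ∧ p.2.2.2.2.1 ≤ 8 ∧
    p.2.2.2.2.2 ≤ 8 := by decide +kernel

theorem V_sum : (V.map fun p => (p.1 : ℤ)).sum = 60545 := by decide +kernel

theorem Rs_congr {x y : Fin 5 → ℕ → A} (h : ∀ i, ∀ n ≤ 8, x i n = y i n) : Rs x = Rs y := by
  unfold Rs
  refine congrArg List.sum (List.map_congr_left fun p hp => ?_)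
  obtain ⟨h0, h1, h2, h3, h4⟩ := V_le p hp
  rw [h 0 _ h0, h 1 _ h1, h 2 _ h2, h 3 _ h3, h 4 _ h4]

theorem map_Rs (f : A →+* B) (x : Fin 5 → ℕ → A) : f (Rs x) = Rs (fun i n => f (x i n)) := by
  unfold Rs
  rw [map_list_sum, List.map_map]
  refine congrArg List.sum (List.map_congr_left fun p _ => ?_)
  simp only [Function.comp_apply, map_mul, map_natCast]

theorem abs_sum_map (L : List (ℕ × ℕ × ℕ × ℕ × ℕ × ℕ)) (f g : ℕ × ℕ × ℕ × ℕ × ℕ × ℕ → ℤ)
    (h : ∀ p, |f p| ≤ g p) : |(L.map f).sum| ≤ (L.map g).sum := by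
  induction L with
  | nil => simp
  | cons a L ih =>
    rw [List.map_cons, List.map_cons, List.sum_cons, List.sum_cons]
    exact (abs_add_le _ _).trans (add_le_add (h a) ih)

theorem Rs_abs {x : Fin 5 → ℕ → ℤ} (h : ∀ i n, |x i n| ≤ 32768) :
    |Rs x| ≤ 60545 * 32768 ^ 5 := by
  unfold Rs
  refine (abs_sum_map V _ (fun p => (p.1 : ℤ) * 32768 ^ 5) fun p => ?_).trans (le_of_eq ?_)
  · rw [abs_mul, Nat.abs_cast, abs_mul, abs_mul, abs_mul, abs_mul]
    refine mul_le_mul_of_nonneg_left ?_ (Nat.cast_nonneg _)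
    have h0 := h 0 p.2.1
    have h1 := h 1 p.2.2.1
    have h2 := h 2 p.2.2.2.1
    have h3 := h 3 p.2.2.2.2.1
    have h4 := h 4 p.2.2.2.2.2
    calc |x 0 p.2.1| * |x 1 p.2.2.1| * |x 2 p.2.2.2.1| * |x 3 p.2.2.2.2.1| * |x 4 p.2.2.2.2.2|
        ≤ 32768 * 32768 * 32768 * 32768 * 32768 := by
          refine mul_le_mul (mul_le_mul (mul_le_mul (mul_le_mul h0 h1 (abs_nonneg _)
            (by norm_num)) h2 (abs_nonneg _) (by norm_num)) h3 (abs_nonneg _) (by norm_num)) h4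
            (abs_nonneg _) (by norm_num)
      _ = 32768 ^ 5 := by norm_num
  · rw [List.sum_map_mul_right, V_sum]

theorem cT_absZ (m : ℕ) : |cT m| ≤ 32768 := by
  have h := cT_abs m
  exact_mod_cast h

/-- the values of the polynomial are bounded from below, modulo the kernel computation -/
theorem Rs_lower {M : ℕ} (hM : M = 340282366920938463463374607431768211456)
    {x : Fin 5 → ℕ → ℤ} (h : ∀ i n, |x i n| ≤ 32768) {N : ℕ}
    (hN : N ≤ 170141183460469231731687303715884105727)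
    (h1 : (N : ZMod M) = 226956933166715148970229760 + Rs (fun i n => (x i n : ZMod M))) :
    -226956933166715148970229760 ≤ Rs x := by
  have h2 := map_Rs (Int.castRingHom (ZMod M)) x
  simp only [eq_intCast] at h2
  have h3 : ((N : ℤ) : ZMod M) = ((226956933166715148970229760 + Rs x : ℤ) : ZMod M) := by
    rw [Int.cast_add, Int.cast_natCast, h1, h2, Int.cast_ofNat]
  rw [ZMod.intCast_eq_intCast_iff_dvd_sub] at h3
  have h4 := abs_le.mp (Rs_abs h)
  by_contra hc
  push Not at hc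
  obtain ⟨d, hd⟩ := h3
  have h5 : (N : ℤ) ≤ 170141183460469231731687303715884105727 := by exact_mod_cast hN
  have h6 : (0 : ℤ) ≤ N := Nat.cast_nonneg N
  have h7 : (M : ℤ) = 340282366920938463463374607431768211456 := by rw [hM]; rfl
  rw [h7] at hd
  generalize Rs x = R at *
  omega

end Pool.Agent.H90.Q5
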