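import Pool.Agent.H90.Q5.Spec

/-!
# The polynomial and the kernel computation
-/

namespace Pool.Agent.H90.Q5

variable {A : Type} [CommRing A]

/-- the rearrangements of the seven orbits, with their weights -/
def V : List (ℕ × ℕ × ℕ × ℕ × ℕ × ℕ) := [
  (194, 0, 0, 0, 0, 8), (194, 0, 0, 0, 8, 0), (194, 0, 0, 8, 0, 0), (194, 0, 8, 0, 0, 0), (194, 8, 0, 0, 0, 0), (233, 1, 1, 2, 3, 7),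
  (233, 1, 1, 2, 7, 3), (233, 1, 1, 3, 2, 7), (233, 1, 1, 3, 7, 2), (233, 1, 1, 7, 2, 3), (233, 1, 1, 7, 3, 2), (233, 1, 2, 1, 3, 7),
  (233, 1, 2, 1, 7, 3), (233, 1, 2, 3, 1, 7), (233, 1, 2, 3, 7, 1), (233, 1, 2, 7, 1, 3), (233, 1, 2, 7, 3, 1), (233, 1, 3, 1, 2, 7),
  (233, 1, 3, 1, 7, 2), (233, 1, 3, 2, 1, 7), (233, 1, 3, 2, 7, 1), (233, 1, 3, 7, 1, 2), (233, 1, 3, 7, 2, 1), (233, 1, 7, 1, 2, 3),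
  (233, 1, 7, 1, 3, 2), (233, 1, 7, 2, 1, 3), (233, 1, 7, 2, 3, 1), (233, 1, 7, 3, 1, 2), (233, 1, 7, 3, 2, 1), (233, 2, 1, 1, 3, 7),
  (233, 2, 1, 1, 7, 3), (233, 2, 1, 3, 1, 7), (233, 2, 1, 3, 7, 1), (233, 2, 1, 7, 1, 3), (233, 2, 1, 7, 3, 1), (233, 2, 3, 1, 1, 7),
  (233, 2, 3, 1, 7, 1), (233, 2, 3, 7, 1, 1), (233, 2, 7, 1, 1, 3), (233, 2, 7, 1, 3, 1), (233, 2, 7, 3, 1, 1), (233, 3, 1, 1, 2, 7),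
  (233, 3, 1, 1, 7, 2), (233, 3, 1, 2, 1, 7), (233, 3, 1, 2, 7, 1), (233, 3, 1, 7, 1, 2), (233, 3, 1, 7, 2, 1), (233, 3, 2, 1, 1, 7),
  (233, 3, 2, 1, 7, 1), (233, 3, 2, 7, 1, 1), (233, 3, 7, 1, 1, 2), (233, 3, 7, 1, 2, 1), (233, 3, 7, 2, 1, 1), (233, 7, 1, 1, 2, 3),
  (233, 7, 1, 1, 3, 2), (233, 7, 1, 2, 1, 3), (233, 7, 1, 2, 3, 1), (233, 7, 1, 3, 1, 2), (233, 7, 1, 3, 2, 1), (233, 7, 2, 1, 1, 3),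
  (233, 7, 2, 1, 3, 1), (233, 7, 2, 3, 1, 1), (233, 7, 3, 1, 1, 2), (233, 7, 3, 1, 2, 1), (233, 7, 3, 2, 1, 1), (332, 1, 1, 1, 5, 6),
  (332, 1, 1, 1, 6, 5), (332, 1, 1, 5, 1, 6), (332, 1, 1, 5, 6, 1), (332, 1, 1, 6, 1, 5), (332, 1, 1, 6, 5, 1), (332, 1, 5, 1, 1, 6),
  (332, 1, 5, 1, 6, 1), (332, 1, 5, 6, 1, 1), (332, 1, 6, 1, 1, 5), (332, 1, 6, 1, 5, 1), (332, 1, 6, 5, 1, 1), (332, 5, 1, 1, 1, 6),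
  (332, 5, 1, 1, 6, 1), (332, 5, 1, 6, 1, 1), (332, 5, 6, 1, 1, 1), (332, 6, 1, 1, 1, 5), (332, 6, 1, 1, 5, 1), (332, 6, 1, 5, 1, 1),
  (332, 6, 5, 1, 1, 1), (520, 2, 2, 2, 4, 6), (520, 2, 2, 2, 6, 4), (520, 2, 2, 4, 2, 6), (520, 2, 2, 4, 6, 2), (520, 2, 2, 6, 2, 4),
  (520, 2, 2, 6, 4, 2), (520, 2, 4, 2, 2, 6), (520, 2, 4, 2, 6, 2), (520, 2, 4, 6, 2, 2), (520, 2, 6, 2, 2, 4), (520, 2, 6, 2, 4, 2),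
  (520, 2, 6, 4, 2, 2), (520, 4, 2, 2, 2, 6), (520, 4, 2, 2, 6, 2), (520, 4, 2, 6, 2, 2), (520, 4, 6, 2, 2, 2), (520, 6, 2, 2, 2, 4),
  (520, 6, 2, 2, 4, 2), (520, 6, 2, 4, 2, 2), (520, 6, 4, 2, 2, 2), (301, 1, 3, 3, 3, 6), (301, 1, 3, 3, 6, 3), (301, 1, 3, 6, 3, 3),
  (301, 1, 6, 3, 3, 3), (301, 3, 1, 3, 3, 6), (301, 3, 1, 3, 6, 3), (301, 3, 1, 6, 3, 3), (301, 3, 3, 1, 3, 6), (301, 3, 3, 1, 6, 3),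
  (301, 3, 3, 3, 1, 6), (301, 3, 3, 3, 6, 1), (301, 3, 3, 6, 1, 3), (301, 3, 3, 6, 3, 1), (301, 3, 6, 1, 3, 3), (301, 3, 6, 3, 1, 3),
  (301, 3, 6, 3, 3, 1), (301, 6, 1, 3, 3, 3), (301, 6, 3, 1, 3, 3), (301, 6, 3, 3, 1, 3), (301, 6, 3, 3, 3, 1), (249, 1, 2, 3, 5, 5),
  (249, 1, 2, 5, 3, 5), (249, 1, 2, 5, 5, 3), (249, 1, 3, 2, 5, 5), (249, 1, 3, 5, 2, 5), (249, 1, 3, 5, 5, 2), (249, 1, 5, 2, 3, 5),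
  (249, 1, 5, 2, 5, 3), (249, 1, 5, 3, 2, 5), (249, 1, 5, 3, 5, 2), (249, 1, 5, 5, 2, 3), (249, 1, 5, 5, 3, 2), (249, 2, 1, 3, 5, 5),
  (249, 2, 1, 5, 3, 5), (249, 2, 1, 5, 5, 3), (249, 2, 3, 1, 5, 5), (249, 2, 3, 5, 1, 5), (249, 2, 3, 5, 5, 1), (249, 2, 5, 1, 3, 5),
  (249, 2, 5, 1, 5, 3), (249, 2, 5, 3, 1, 5), (249, 2, 5, 3, 5, 1), (249, 2, 5, 5, 1, 3), (249, 2, 5, 5, 3, 1), (249, 3, 1, 2, 5, 5),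
  (249, 3, 1, 5, 2, 5), (249, 3, 1, 5, 5, 2), (249, 3, 2, 1, 5, 5), (249, 3, 2, 5, 1, 5), (249, 3, 2, 5, 5, 1), (249, 3, 5, 1, 2, 5),
  (249, 3, 5, 1, 5, 2), (249, 3, 5, 2, 1, 5), (249, 3, 5, 2, 5, 1), (249, 3, 5, 5, 1, 2), (249, 3, 5, 5, 2, 1), (249, 5, 1, 2, 3, 5),
  (249, 5, 1, 2, 5, 3), (249, 5, 1, 3, 2, 5), (249, 5, 1, 3, 5, 2), (249, 5, 1, 5, 2, 3), (249, 5, 1, 5, 3, 2), (249, 5, 2, 1, 3, 5),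
  (249, 5, 2, 1, 5, 3), (249, 5, 2, 3, 1, 5), (249, 5, 2, 3, 5, 1), (249, 5, 2, 5, 1, 3), (249, 5, 2, 5, 3, 1), (249, 5, 3, 1, 2, 5),
  (249, 5, 3, 1, 5, 2), (249, 5, 3, 2, 1, 5), (249, 5, 3, 2, 5, 1), (249, 5, 3, 5, 1, 2), (249, 5, 3, 5, 2, 1), (249, 5, 5, 1, 2, 3),
  (249, 5, 5, 1, 3, 2), (249, 5, 5, 2, 1, 3), (249, 5, 5, 2, 3, 1), (249, 5, 5, 3, 1, 2), (249, 5, 5, 3, 2, 1), (1519, 0, 4, 4, 4, 4),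
  (1519, 4, 0, 4, 4, 4), (1519, 4, 4, 0, 4, 4), (1519, 4, 4, 4, 0, 4), (1519, 4, 4, 4, 4, 0)]

/-- the polynomial -/
def Rs (x : Fin 5 → ℕ → A) : A :=
  (V.map fun p => (p.1 : A) * (x 0 p.2.1 * x 1 p.2.2.1 * x 2 p.2.2.2.1 * x 3 p.2.2.2.2.1 *
    x 4 p.2.2.2.2.2)).sum

set_option maxRecDepth 100000 in
set_option maxHeartbeats 4000000 in
theorem Rs_eq (x : Fin 5 → ℕ → A) : Rs x =
    ((194 * ((x 0 0 * x 1 8 + x 0 8 * x 1 0) * x 2 0 + (x 0 0 * x 1 0) * x 2 8)) * x 3 0 + (1519 * ((x 0 4 * x 1 4) * x 2 4)) * x 3 4 + (194 * ((x 0 0 * x 1 0) * x 2 0)) * x 3 8) * x 4 0 +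
    ((233 * ((x 0 3 * x 1 7 + x 0 7 * x 1 3) * x 2 2 + (x 0 2 * x 1 7 + x 0 7 * x 1 2) * x 2 3 + (x 0 2 * x 1 3 + x 0 3 * x 1 2) * x 2 7) + 332 * ((x 0 5 * x 1 6 + x 0 6 * x 1 5) * x 2 1 + (x 0 1 * x 1 6 + x 0 6 * x 1 1) * x 2 5 + (x 0 1 * x 1 5 + x 0 5 * x 1 1) * x 2 6)) * x 3 1 + (233 * ((x 0 3 * x 1 7 + x 0 7 * x 1 3) * x 2 1 + (x 0 1 * x 1 7 + x 0 7 * x 1 1) * x 2 3 + (x 0 1 * x 1 3 + x 0 3 * x 1 1) * x 2 7) + 249 * ((x 0 5 * x 1 5) * x 2 3 + (x 0 3 * x 1 5 + x 0 5 * x 1 3) * x 2 5)) * x 3 2 + (233 * ((x 0 2 * x 1 7 + x 0 7 * x 1 2) * x 2 1 + (x 0 1 * x 1 7 + x 0 7 * x 1 1) * x 2 2 + (x 0 1 * x 1 2 + x 0 2 * x 1 1) * x 2 7) + 301 * ((x 0 3 * x 1 6 + x 0 6 * x 1 3) * x 2 3 + (x 0 3 * x 1 3) * x 2 6) + 249 * ((x 0 5 * x 1 5) * x 2 2 + (x 0 2 * x 1 5 + x 0 5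 * x 1 2) * x 2 5)) * x 3 3 + (332 * ((x 0 1 * x 1 6 + x 0 6 * x 1 1) * x 2 1 + (x 0 1 * x 1 1) * x 2 6) + 249 * ((x 0 3 * x 1 5 + x 0 5 * x 1 3) * x 2 2 + (x 0 2 * x 1 5 + x 0 5 * x 1 2) * x 2 3 + (x 0 2 * x 1 3 + x 0 3 * x 1 2) * x 2 5)) * x 3 5 + (332 * ((x 0 1 * x 1 5 + x 0 5 * x 1 1) * x 2 1 + (x 0 1 * x 1 1) * x 2 5) + 301 * ((x 0 3 * x 1 3) * x 2 3)) * x 3 6 + (233 * ((x 0 2 * x 1 3 + x 0 3 * x 1 2) * x 2 1 + (x 0 1 * x 1 3 + x 0 3 * x 1 1) * x 2 2 + (x 0 1 * x 1 2 + x 0 2 * x 1 1) * x 2 3)) * x 3 7) * x 4 1 +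
    ((233 * ((x 0 3 * x 1 7 + x 0 7 * x 1 3) * x 2 1 + (x 0 1 * x 1 7 + x 0 7 * x 1 1) * x 2 3 + (x 0 1 * x 1 3 + x 0 3 * x 1 1) * x 2 7) + 249 * ((x 0 5 * x 1 5) * x 2 3 + (x 0 3 * x 1 5 + x 0 5 * x 1 3) * x 2 5)) * x 3 1 + (520 * ((x 0 4 * x 1 6 + x 0 6 * x 1 4) * x 2 2 + (x 0 2 * x 1 6 + x 0 6 * x 1 2) * x 2 4 + (x 0 2 * x 1 4 + x 0 4 * x 1 2) * x 2 6)) * x 3 2 + (233 * ((x 0 1 * x 1 7 + x 0 7 * x 1 1) * x 2 1 + (x 0 1 * x 1 1) * x 2 7) + 249 * ((x 0 5 * x 1 5) * x 2 1 + (x 0 1 * x 1 5 + x 0 5 * x 1 1) * x 2 5)) * x 3 3 + (520 * ((x 0 2 * x 1 6 + x 0 6 * x 1 2) * x 2 2 + (x 0 2 * x 1 2) * x 2 6)) * x 3 4 + (249 * ((x 0 3 * x 1 5 + x 0 5 * x 1 3) * x 2 1 + (x 0 1 * x 1 5 + x 0 5 * x 1 1) * x 2 3 + (x 0 1 * x 1 3 + x 0 3 * x 1 1) * x 2 5)) * x 3 5 + (520 * ((x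 0 2 * x 1 4 + x 0 4 * x 1 2) * x 2 2 + (x 0 2 * x 1 2) * x 2 4)) * x 3 6 + (233 * ((x 0 1 * x 1 3 + x 0 3 * x 1 1) * x 2 1 + (x 0 1 * x 1 1) * x 2 3)) * x 3 7) * x 4 2 +
    ((233 * ((x 0 2 * x 1 7 + x 0 7 * x 1 2) * x 2 1 + (x 0 1 * x 1 7 + x 0 7 * x 1 1) * x 2 2 + (x 0 1 * x 1 2 + x 0 2 * x 1 1) * x 2 7) + 301 * ((x 0 3 * x 1 6 + x 0 6 * x 1 3) * x 2 3 + (x 0 3 * x 1 3) * x 2 6) + 249 * ((x 0 5 * x 1 5) * x 2 2 + (x 0 2 * x 1 5 + x 0 5 * x 1 2) * x 2 5)) * x 3 1 + (233 * ((x 0 1 * x 1 7 + x 0 7 * x 1 1) * x 2 1 + (x 0 1 * x 1 1) * x 2 7) + 249 * ((x 0 5 * x 1 5) * x 2 1 + (x 0 1 * x 1 5 + x 0 5 * x 1 1) * x 2 5)) * x 3 2 + (301 * ((x 0 3 * x 1 6 + x 0 6 * x 1 3) * x 2 1 + (x 0 1 * x 1 6 + x 0 6 * x 1 1) * x 2 3 + (x 0 1 * x 1 3 + x 0 3 * x 1 1) * x 2 6)) *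 x 3 3 + (249 * ((x 0 2 * x 1 5 + x 0 5 * x 1 2) * x 2 1 + (x 0 1 * x 1 5 + x 0 5 * x 1 1) * x 2 2 + (x 0 1 * x 1 2 + x 0 2 * x 1 1) * x 2 5)) * x 3 5 + (301 * ((x 0 3 * x 1 3) * x 2 1 + (x 0 1 * x 1 3 + x 0 3 * x 1 1) * x 2 3)) * x 3 6 + (233 * ((x 0 1 * x 1 2 + x 0 2 * x 1 1) * x 2 1 + (x 0 1 * x 1 1) * x 2 2)) * x 3 7) * x 4 3 +
    ((1519 * ((x 0 4 * x 1 4) * x 2 4)) * x 3 0 + (520 * ((x 0 2 * x 1 6 + x 0 6 * x 1 2) * x 2 2 + (x 0 2 * x 1 2) * x 2 6)) * x 3 2 + (1519 * ((x 0 4 * x 1 4) * x 2 0 + (x 0 0 * x 1 4 + x 0 4 * x 1 0) * x 2 4)) * x 3 4 + (520 * ((x 0 2 * x 1 2) * x 2 2)) * x 3 6) * x 4 4 +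
    ((332 * ((x 0 1 * x 1 6 + x 0 6 * x 1 1) * x 2 1 + (x 0 1 * x 1 1) * x 2 6) + 249 * ((x 0 3 * x 1 5 + x 0 5 * x 1 3) * x 2 2 + (x 0 2 * x 1 5 + x 0 5 * x 1 2) * x 2 3 + (x 0 2 * x 1 3 + x 0 3 * x 1 2) * x 2 5)) * x 3 1 + (249 * ((x 0 3 * x 1 5 + x 0 5 * x 1 3) * x 2 1 + (x 0 1 * x 1 5 + x 0 5 * x 1 1) * x 2 3 + (x 0 1 * x 1 3 + x 0 3 * x 1 1) * x 2 5)) * x 3 2 + (249 * ((x 0 2 * x 1 5 + x 0 5 * x 1 2) * x 2 1 + (x 0 1 * x 1 5 + x 0 5 * x 1 1) * x 2 2 + (x 0 1 * x 1 2 + x 0 2 * x 1 1) * x 2 5)) * x 3 3 + (249 * ((x 0 2 * x 1 3 + x 0 3 * x 1 2) * x 2 1 + (x 0 1 * x 1 3 + x 0 3 * x 1 1) * x 2 2 + (x 0 1 * x 1 2 + x 0 2 * x 1 1) * x 2 3)) * x 3 5 + (332 * ((x 0 1 * x 1 1) * x 2 1)) * x 3 6) * x 4 5 +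
    ((332 * ((x 0 1 * x 1 5 + x 0 5 * x 1 1) * x 2 1 + (x 0 1 * x 1 1) * x 2 5) + 301 * ((x 0 3 * x 1 3) * x 2 3)) * x 3 1 + (520 * ((x 0 2 * x 1 4 + x 0 4 * x 1 2) * x 2 2 + (x 0 2 * x 1 2) * x 2 4)) * x 3 2 + (301 * ((x 0 3 * x 1 3) * x 2 1 + (x 0 1 * x 1 3 + x 0 3 * x 1 1) * x 2 3)) * x 3 3 + (520 * ((x 0 2 * x 1 2) * x 2 2)) * x 3 4 + (332 * ((x 0 1 * x 1 1) * x 2 1)) * x 3 5) * x 4 6 +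
    ((233 * ((x 0 2 * x 1 3 + x 0 3 * x 1 2) * x 2 1 + (x 0 1 * x 1 3 + x 0 3 * x 1 1) * x 2 2 + (x 0 1 * x 1 2 + x 0 2 * x 1 1) * x 2 3)) * x 3 1 + (233 * ((x 0 1 * x 1 3 + x 0 3 * x 1 1) * x 2 1 + (x 0 1 * x 1 1) * x 2 3)) * x 3 2 + (233 * ((x 0 1 * x 1 2 + x 0 2 * x 1 1) * x 2 1 + (x 0 1 * x 1 1) * x 2 2)) * x 3 3) * x 4 7 +
    ((194 * ((x 0 0 * x 1 0) * x 2 0)) * x 3 0) * x 4 8 := by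
  unfold Rs V
  simp only [List.map_cons, List.map_nil, List.sum_cons, List.sum_nil, Nat.cast_ofNat]
  ring

set_option maxRecDepth 100000 in
theorem Rs_eq_0 (x : Fin 5 → ℕ → A) : Rs (fun i => x (![1, 0, 2, 3, 4] i)) = Rs x := by
  have h0 : (![1, 0, 2, 3, 4] : Fin 5 → Fin 5) 0 = 1 := rfl
  have h1 : (![1, 0, 2, 3, 4] : Fin 5 → Fin 5) 1 = 0 := rfl
  have h2 : (![1, 0, 2, 3, 4] : Fin 5 → Fin 5) 2 = 2 := rfl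
  have h3 : (![1, 0, 2, 3, 4] : Fin 5 → Fin 5) 3 = 3 := rfl
  have h4 : (![1, 0, 2, 3, 4] : Fin 5 → Fin 5) 4 = 4 := rfl
  unfold Rs V
  simp only [List.map_cons, List.map_nil, List.sum_cons, List.sum_nil, Nat.cast_ofNat,
    h0, h1, h2, h3, h4]
  ring

set_option maxRecDepth 100000 in
theorem Rs_eq_1 (x : Fin 5 → ℕ → A) : Rs (fun i => x (![0, 2, 1, 3, 4] i)) = Rs x := by
  have h0 : (![0, 2, 1, 3, 4] : Fin 5 → Fin 5) 0 = 0 := rfl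
  have h1 : (![0, 2, 1, 3, 4] : Fin 5 → Fin 5) 1 = 2 := rfl
  have h2 : (![0, 2, 1, 3, 4] : Fin 5 → Fin 5) 2 = 1 := rfl
  have h3 : (![0, 2, 1, 3, 4] : Fin 5 → Fin 5) 3 = 3 := rfl
  have h4 : (![0, 2, 1, 3, 4] : Fin 5 → Fin 5) 4 = 4 := rfl
  unfold Rs V
  simp only [List.map_cons, List.map_nil, List.sum_cons, List.sum_nil, Nat.cast_ofNat,
    h0, h1, h2, h3, h4]
  ring

set_option maxRecDepth 100000 in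
theorem Rs_eq_2 (x : Fin 5 → ℕ → A) : Rs (fun i => x (![0, 1, 3, 2, 4] i)) = Rs x := by
  have h0 : (![0, 1, 3, 2, 4] : Fin 5 → Fin 5) 0 = 0 := rfl
  have h1 : (![0, 1, 3, 2, 4] : Fin 5 → Fin 5) 1 = 1 := rfl
  have h2 : (![0, 1, 3, 2, 4] : Fin 5 → Fin 5) 2 = 3 := rfl
  have h3 : (![0, 1, 3, 2, 4] : Fin 5 → Fin 5) 3 = 2 := rfl
  have h4 : (![0, 1, 3, 2, 4] : Fin 5 → Fin 5) 4 = 4 := rfl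
  unfold Rs V
  simp only [List.map_cons, List.map_nil, List.sum_cons, List.sum_nil, Nat.cast_ofNat,
    h0, h1, h2, h3, h4]
  ring

set_option maxRecDepth 100000 in
theorem Rs_eq_3 (x : Fin 5 → ℕ → A) : Rs (fun i => x (![0, 1, 2, 4, 3] i)) = Rs x := by
  have h0 : (![0, 1, 2, 4, 3] : Fin 5 → Fin 5) 0 = 0 := rfl
  have h1 : (![0, 1, 2, 4, 3] : Fin 5 → Fin 5) 1 = 1 := rfl
  have h2 : (![0, 1, 2, 4, 3] : Fin 5 → Fin 5) 2 = 2 := rfl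
  have h3 : (![0, 1, 2, 4, 3] : Fin 5 → Fin 5) 3 = 4 := rfl
  have h4 : (![0, 1, 2, 4, 3] : Fin 5 → Fin 5) 4 = 3 := rfl
  unfold Rs V
  simp only [List.map_cons, List.map_nil, List.sum_cons, List.sum_nil, Nat.cast_ofNat,
    h0, h1, h2, h3, h4]
  ring

/-- symmetry -/
theorem Rs_perm (σ : Equiv.Perm (Fin 5)) (x : Fin 5 → ℕ → A) : Rs (fun i => x (σ i)) = Rs x := by
  have hσ : σ ∈ Submonoid.closure (Set.range fun i : Fin 4 => Equiv.swap i.castSucc i.succ) := by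
    rw [Equiv.Perm.mclosure_swap_castSucc_succ]
    exact Submonoid.mem_top σ
  induction hσ using Submonoid.closure_induction generalizing x with
  | mem s hs =>
    obtain ⟨i, rfl⟩ := hs
    fin_cases i
    · refine Eq.trans (congrArg Rs (funext fun j => ?_)) (Rs_eq_0 x)
      fin_cases j <;> rfl
    · refine Eq.trans (congrArg Rs (funext fun j => ?_)) (Rs_eq_1 x)
      fin_cases j <;> rfl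
    · refine Eq.trans (congrArg Rs (funext fun j => ?_)) (Rs_eq_2 x)
      fin_cases j <;> rfl
    · refine Eq.trans (congrArg Rs (funext fun j => ?_)) (Rs_eq_3 x)
      fin_cases j <;> rfl
  | one => rfl
  | mul s t _ _ hs ht =>
    have h1 := ht (fun i => x (s i))
    rw [hs x] at h1
    exact h1

end Pool.Agent.H90.Q5
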