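import Pool.Agent.H90.Q5.Spec
import Pool.Agent.H90.Q5.Poly

/-!
# From the kernel computation to the polynomial
-/

namespace Pool.Agent.H90.Q5

variable {A : Type} [CommRing A]

/-- the values at five rows -/
noncomputable def xr (r1 r2 r3 r4 r5 : Row) (i : Fin 5) (n : ℕ) : A :=
  (((![r1, r2, r3, r4, r5] : Fin 5 → Row) i).get n : A)

theorem xr_0 (r1 r2 r3 r4 r5 : Row) (n : ℕ) : (xr r1 r2 r3 r4 r5 0 n : A) = (r1.get n : A) := rfl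

theorem xr_1 (r1 r2 r3 r4 r5 : Row) (n : ℕ) : (xr r1 r2 r3 r4 r5 1 n : A) = (r2.get n : A) := rfl

theorem xr_2 (r1 r2 r3 r4 r5 : Row) (n : ℕ) : (xr r1 r2 r3 r4 r5 2 n : A) = (r3.get n : A) := rfl

theorem xr_3 (r1 r2 r3 r4 r5 : Row) (n : ℕ) : (xr r1 r2 r3 r4 r5 3 n : A) = (r4.get n : A) := rfl

theorem xr_4 (r1 r2 r3 r4 r5 : Row) (n : ℕ) : (xr r1 r2 r3 r4 r5 4 n : A) = (r5.get n : A) := rfl

variable (c1 c2 c3 c4 c5 c6 c7 c8 : ℕ)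

theorem get_0 : (Row.mk c1 c2 c3 c4 c5 c6 c7 c8).get 0 = 32768 := rfl

theorem get_1 : (Row.mk c1 c2 c3 c4 c5 c6 c7 c8).get 1 = c1 := rfl

theorem get_2 : (Row.mk c1 c2 c3 c4 c5 c6 c7 c8).get 2 = c2 := rfl

theorem get_3 : (Row.mk c1 c2 c3 c4 c5 c6 c7 c8).get 3 = c3 := rfl

theorem get_4 : (Row.mk c1 c2 c3 c4 c5 c6 c7 c8).get 4 = c4 := rfl

theorem get_5 : (Row.mk c1 c2 c3 c4 c5 c6 c7 c8).get 5 = c5 := rfl

theorem get_6 : (Row.mk c1 c2 c3 c4 c5 c6 c7 c8).get 6 = c6 := rfl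

theorem get_7 : (Row.mk c1 c2 c3 c4 c5 c6 c7 c8).get 7 = c7 := rfl

theorem get_8 : (Row.mk c1 c2 c3 c4 c5 c6 c7 c8).get 8 = c8 := rfl

set_option maxRecDepth 100000 in
set_option maxHeartbeats 4000000 in
theorem chain (hA : ((340282366920938463463374607431768211456 : ℕ) : A) = 0) {r1 r2 r3 r4 r5 : Row}
    {t1 t2 t3 t4 t5 : List Row} (h : chk (r1 :: t1) = true)
    (s2 : (r2 :: t2) <:+ (r1 :: t1)) (s3 : (r3 :: t3) <:+ (r2 :: t2))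
    (s4 : (r4 :: t4) <:+ (r3 :: t3)) (s5 : (r5 :: t5) <:+ (r4 :: t4)) :
    ∃ N : ℕ, N ≤ 170141183460469231731687303715884105727 ∧ (N : A) = 226956933166715148970229760 + Rs (xr r1 r2 r3 r4 r5) := by
  obtain ⟨a1, a2, a3, a4, a5, a6, a7, a8⟩ := r1
  obtain ⟨b1, b2, b3, b4, b5, b6, b7, b8⟩ := r2
  obtain ⟨c1, c2, c3, c4, c5, c6, c7, c8⟩ := r3
  obtain ⟨g1, g2, g3, g4, g5, g6, g7, g8⟩ := r4
  obtain ⟨h1, h2, h3, h4, h5, h6, h7, h8⟩ := r5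
  have k2 : allSuf (l2 a1 a2 a3 a4 a5 a6 a7 a8) (Row.mk a1 a2 a3 a4 a5 a6 a7 a8 :: t1) = true := h
  have k3 := allSuf_spec k2 s2
  obtain ⟨q00, q04, q08, q11, q12, q13, q15, q16, q17, q22, q23, q24, q25, q26, q27, q33, q35, q36, q37, q44, q46, q55, q56,
    Hq00, Hq04, Hq08, Hq11, Hq12, Hq13, Hq15, Hq16, Hq17, Hq22, Hq23, Hq24, Hq25, Hq26, Hq27, Hq33, Hq35, Hq36, Hq37, Hq44, Hq46, Hq55, Hq56, k4⟩ := l2_spec hA k3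
  have k5 := allSuf_spec k4 s3
  obtain ⟨d00, d04, d08, d11, d12, d13, d15, d16, d17, d22, d23, d24, d25, d26, d27, d33, d35, d36, d37, d44, d46, d55, d56,
    Hd00, Hd04, Hd08, Hd11, Hd12, Hd13, Hd15, Hd16, Hd17, Hd22, Hd23, Hd24, Hd25, Hd26, Hd27, Hd33, Hd35, Hd36, Hd37, Hd44, Hd46, Hd55, Hd56, k6⟩ := l3_spec hA k5
  have k7 := allSuf_spec k6 s4
  obtain ⟨e0, e1, e2, e3, e4, e5, e6, e7, e8,
    He0, He1, He2, He3, He4, He5, He6, He7, He8, k8⟩ := l4_spec hA k7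
  have k9 := allSuf_spec k8 s5
  obtain ⟨N, hN, hN2⟩ := l5_spec hA k9
  refine ⟨N, hN, ?_⟩
  clear h s2 s3 s4 s5 k2 k3 k4 k5 k6 k7 k8 k9
  rw [Rs_eq]
  simp only [xr_0, xr_1, xr_2, xr_3, xr_4, get_0, get_1, get_2, get_3, get_4, get_5, get_6, get_7,
    get_8, Nat.cast_ofNat]
  rw [hN2, He0, He1, He2, He3, He4, He5, He6, He7, He8,
    Hd00, Hd04, Hd08, Hd11, Hd12, Hd13, Hd15, Hd16, Hd17, Hd22, Hd23, Hd24, Hd25, Hd26, Hd27, Hd33, Hd35, Hd36, Hd37, Hd44, Hd46, Hd55, Hd56,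
    Hq00, Hq04, Hq08, Hq11, Hq12, Hq13, Hq15, Hq16, Hq17, Hq22, Hq23, Hq24, Hq25, Hq26, Hq27, Hq33, Hq35, Hq36, Hq37, Hq44, Hq46, Hq55, Hq56]
  ring

end Pool.Agent.H90.Q5
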