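import Pool.Agent.H90.Q5.Tab

/-!
# The kernel computation, part 1
-/

namespace Pool.Agent.H90.Q5

set_option maxRecDepth 1000000

theorem chk_0 : chk (List.drop 0 rows) = true := by decide +kernel

theorem chk_1 : chk (List.drop 1 rows) = true := by decide +kernel

theorem chk_2 : chk (List.drop 2 rows) = true := by decide +kernel

end Pool.Agent.H90.Q5
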