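import Pool.Agent.H90.Q5.Tab

/-!
# The kernel computation, part 2
-/

namespace Pool.Agent.H90.Q5

set_option maxRecDepth 1000000

theorem chk_3 : chk (List.drop 3 rows) = true := by decide +kernel

theorem chk_4 : chk (List.drop 4 rows) = true := by decide +kernel

theorem chk_5 : chk (List.drop 5 rows) = true := by decide +kernel

theorem chk_6 : chk (List.drop 6 rows) = true := by decide +kernel

end Pool.Agent.H90.Q5
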