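import Pool.Agent.H90.Q5.Tab

/-!
# The kernel computation, part 3
-/

namespace Pool.Agent.H90.Q5

set_option maxRecDepth 1000000

theorem chk_7 : chk (List.drop 7 rows) = true := by decide +kernel

theorem chk_8 : chk (List.drop 8 rows) = true := by decide +kernel

theorem chk_9 : chk (List.drop 9 rows) = true := by decide +kernel

theorem chk_10 : chk (List.drop 10 rows) = true := by decide +kernel

theorem chk_11 : chk (List.drop 11 rows) = true := by decide +kernel

theorem chk_12 : chk (List.drop 12 rows) = true := by decide +kernel

theorem chk_13 : chk (List.drop 13 rows) = true := by decide +kernel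

end Pool.Agent.H90.Q5
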