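import Pool.Agent.H90.Q5.Tab

/-!
# The kernel computation, part 4
-/

namespace Pool.Agent.H90.Q5

set_option maxRecDepth 1000000

theorem chk_14 : chk (List.drop 14 rows) = true := by decide +kernel

theorem chk_15 : chk (List.drop 15 rows) = true := by decide +kernel

theorem chk_16 : chk (List.drop 16 rows) = true := by decide +kernel

theorem chk_17 : chk (List.drop 17 rows) = true := by decide +kernel

theorem chk_18 : chk (List.drop 18 rows) = true := by decide +kernel

theorem chk_19 : chk (List.drop 19 rows) = true := by decide +kernel

theorem chk_20 : chk (List.drop 20 rows) = true := by decide +kernel

theorem chk_21 : chk (List.drop 21 rows) = true := by decide +kernel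

theorem chk_22 : chk (List.drop 22 rows) = true := by decide +kernel

theorem chk_23 : chk (List.drop 23 rows) = true := by decide +kernel

theorem chk_24 : chk (List.drop 24 rows) = true := by decide +kernel

theorem chk_25 : chk (List.drop 25 rows) = true := by decide +kernel

theorem chk_26 : chk (List.drop 26 rows) = true := by decide +kernel

theorem chk_27 : chk (List.drop 27 rows) = true := by decide +kernel

theorem chk_28 : chk (List.drop 28 rows) = true := by decide +kernel

theorem chk_29 : chk (List.drop 29 rows) = true := by decide +kernel

theorem chk_30 : chk (List.drop 30 rows) = true := by decide +kernel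

theorem chk_31 : chk (List.drop 31 rows) = true := by decide +kernel

theorem chk_32 : chk (List.drop 32 rows) = true := by decide +kernel

end Pool.Agent.H90.Q5
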