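import Pool.Agent.H90.Q5.Sgn

/-!
# The spectral measure of a colouring
-/

namespace Pool.Agent.H90.Q5

open Finset
open scoped ComplexConjugate Real

/-- the table of the window -/
def hL : List ℕ :=
  [6, 11, 16, 22, 27, 32, 38, 43, 48, 52, 57, 61, 66, 70, 74, 77, 81, 84, 87, 89, 92, 94, 95, 97,
    98, 99, 100, 100, 100, 100, 99, 98, 97, 95, 94, 92, 89, 87, 84, 81, 77, 74, 70, 66, 61, 57, 52,
    48, 43, 38, 32, 27, 22, 16, 11, 6]

/-- the window -/
def hT (n : ℕ) : ℕ := hL.getD n 0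

lemma hT_lt {n : ℕ} (h : hT n ≠ 0) : n < 56 := by
  by_contra hc
  apply h
  unfold hT
  exact List.getD_eq_default _ _ (by change 56 ≤ n; omega)

/-- the autocorrelation of the window -/
def K (n : ℕ) : ℕ := ∑ u : ZMod 64, hT u.val * hT (u + (n : ZMod 64)).val

/-- the weight of the points -/
def Hw (x : G5) : ℝ := ∏ i, (hT (x i).val : ℝ)

lemma K_sgn (n : ℕ) (b : Bool) :
    ∑ u : ZMod 64, (hT u.val : ℝ) * hT (u + if b then (n : ZMod 64) else -(n : ZMod 64)).val = K n := by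
  cases b
  · simp only [Bool.false_eq_true, if_false]
    unfold K
    push_cast
    rw [← Equiv.sum_comp (Equiv.addRight (n : ZMod 64))]
    refine Finset.sum_congr rfl fun u _ => ?_
    rw [Equiv.coe_addRight, add_neg_cancel_right, mul_comm]
  · simp only [if_true]
    unfold K
    push_cast
    rfl

lemma sum_HH (v : Fin 5 → ℕ) (e : Fin 5 → Bool) :
    ∑ x, Hw x * Hw (x + sv v e) = ∏ i, (K (v i) : ℝ) := by
  have h1 : ∏ i, ∑ u : ZMod 64, (hT u.val : ℝ) *
      hT (u + if e i then (v i : ZMod 64) else -(v i : ZMod 64)).val =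
      ∑ x, Hw x * Hw (x + sv v e) := by
    rw [Finset.prod_univ_sum, Fintype.piFinset_univ]
    refine Finset.sum_congr rfl fun x _ => ?_
    rw [Finset.prod_mul_distrib]
    rfl
  rw [← h1]
  exact Finset.prod_congr rfl fun i _ => K_sgn (v i) (e i)

/-- the point of `ℚ^5` -/
def Pt (x : G5) : Fin 5 → ℚ := fun i => ((x i).val : ℚ) / 8

lemma diff_eq {v : ℕ} (hv : v ≤ 8) (b : Bool) (u : ZMod 64) (h1 : u.val < 56)
    (h2 : (u + if b then (v : ZMod 64) else -(v : ZMod 64)).val < 56) :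
    (((u + if b then (v : ZMod 64) else -(v : ZMod 64)).val : ℤ) - u.val) ^ 2 = (v : ℤ) ^ 2 := by
  set w : ZMod 64 := u + if b then (v : ZMod 64) else -(v : ZMod 64) with hw
  have h3 : (((w.val : ℤ) : ZMod 64)) = (((u.val : ℤ) + (if b then (v : ℤ) else -(v : ℤ)) : ℤ) : ZMod 64) := by
    push_cast
    rw [ZMod.natCast_zmod_val, ZMod.natCast_zmod_val, hw]
  rw [ZMod.intCast_eq_intCast_iff] at h3
  have h4 := h3.dvd
  cases b
  · simp only [Bool.false_eq_true, if_false] at h4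
    have h5 : (w.val : ℤ) - u.val = -(v : ℤ) := by omega
    rw [h5, neg_sq]
  · simp only [if_true] at h4
    have h5 : (w.val : ℤ) - u.val = (v : ℤ) := by omega
    rw [h5]

lemma unit_dist {v : Fin 5 → ℕ} (hv : ∀ i, v i ≤ 8) (hs : ∑ i, v i ^ 2 = 64) (e : Fin 5 → Bool)
    (x : G5) (h1 : Hw x ≠ 0) (h2 : Hw (x + sv v e) ≠ 0) :
    ∑ i, (Pt x i - Pt (x + sv v e) i) ^ 2 = 1 := by
  have h3 : ∀ i, (x i).val < 56 := by
    intro i
    apply hT_lt
    intro h
    apply h1
    exact Finset.prod_eq_zero (Finset.mem_univ i) (by rw [h]; simp)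
  have h4 : ∀ i, ((x + sv v e) i).val < 56 := by
    intro i
    apply hT_lt
    intro h
    apply h2
    exact Finset.prod_eq_zero (Finset.mem_univ i) (by rw [h]; simp)
  have h5 : ∀ i, (Pt x i - Pt (x + sv v e) i) ^ 2 = ((v i ^ 2 : ℕ) : ℚ) / 64 := by
    intro i
    have h6 := diff_eq (hv i) (e i) (x i) (h3 i) (h4 i)
    have h7 : ((((x + sv v e) i).val : ℚ) - (x i).val) ^ 2 = (v i : ℚ) ^ 2 := by
      exact_mod_cast h6
    unfold Pt
    push_cast
    rw [← h7]
    ring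
  rw [Finset.sum_congr rfl (fun i _ => h5 i), ← Finset.sum_div, ← Nat.cast_sum, hs]
  norm_num

/-- the functions attached to the colours -/
noncomputable def fj (c : (Fin 5 → ℚ) → Fin 10) (j : Fin 10) (x : G5) : ℝ :=
  Hw x * ((if c (Pt x) = j then 1 else 0) - 1 / 10)

lemma sum_col (a b : Fin 10) : ∑ j : Fin 10, ((if a = j then (1 : ℝ) else 0) - 1 / 10) *
    ((if b = j then (1 : ℝ) else 0) - 1 / 10) = (if a = b then 1 else 0) - 1 / 10 := by
  have h1 : ∀ j : Fin 10, ((if a = j then (1 : ℝ) else 0) - 1 / 10) *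
      ((if b = j then (1 : ℝ) else 0) - 1 / 10) =
      (if a = j then (if b = j then (1 : ℝ) else 0) else 0) - 1 / 10 * (if a = j then (1 : ℝ) else 0) -
        1 / 10 * (if b = j then (1 : ℝ) else 0) + 1 / 100 := by
    intro j
    split_ifs <;> norm_num
  rw [Finset.sum_congr rfl (fun j _ => h1 j), Finset.sum_add_distrib, Finset.sum_sub_distrib,
    Finset.sum_sub_distrib, ← Finset.mul_sum, ← Finset.mul_sum, Finset.sum_ite_eq,
    Finset.sum_ite_eq, Finset.sum_ite_eq]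
  simp only [Finset.mem_univ, if_true, Finset.sum_const, Finset.card_univ, Fintype.card_fin,
    nsmul_eq_mul]
  by_cases h : a = b
  · rw [if_pos h, if_pos h.symm]
    norm_num
  · rw [if_neg h, if_neg (fun h' => h h'.symm)]
    norm_num

lemma sum_j (c : (Fin 5 → ℚ) → Fin 10) (x y : G5) :
    ∑ j, fj c j x * fj c j y = Hw x * Hw y * ((if c (Pt x) = c (Pt y) then 1 else 0) - 1 / 10) := by
  rw [← sum_col, Finset.mul_sum]
  refine Finset.sum_congr rfl fun j _ => ?_
  unfold fj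
  ring

/-- the spectral measure of a colouring without monochromatic unit distance -/
theorem exists_mu (c : (Fin 5 → ℚ) → Fin 10)
    (hc : ∀ x y : Fin 5 → ℚ, ∑ i, (x i - y i) ^ 2 = 1 → c x ≠ c y) :
    ∃ μ : G5 → ℝ, (∀ k, 0 ≤ μ k) ∧ ∑ k, μ k = 9 / 10 * (K 0 : ℝ) ^ 5 ∧
      ∀ v : Fin 5 → ℕ, (∀ i, v i ≤ 8) → ∑ i, v i ^ 2 = 64 →
        ∑ k, μ k * pc v k = -(1 / 10) * ∏ i, (K (v i) : ℝ) := by
  refine ⟨fun k => (∑ j, ‖Fh (fj c j) k‖ ^ 2) / 64 ^ 5, fun k => by positivity, ?_, ?_⟩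
  · rw [← Finset.sum_div, Finset.sum_comm, Finset.sum_congr rfl (fun j _ => corr_zero (fj c j)),
      ← Finset.mul_sum, mul_div_cancel_left₀ _ (by positivity), Finset.sum_comm]
    have h1 : ∀ x, ∑ j, fj c j x ^ 2 = 9 / 10 * (Hw x * Hw (x + sv (fun _ => 0) (fun _ => true))) := by
      intro x
      have h2 : sv (fun _ => 0) (fun _ => true) = 0 := by
        funext i
        simp [sv]
      rw [h2, add_zero, Finset.sum_congr rfl (fun j _ => sq (fj c j x)), sum_j, if_pos rfl]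
      ring
    rw [Finset.sum_congr rfl (fun x _ => h1 x), ← Finset.mul_sum, sum_HH, Finset.prod_const,
      Finset.card_univ, Fintype.card_fin]
  · intro v hv hs
    have h1 : ∀ j, ∑ k, ‖Fh (fj c j) k‖ ^ 2 * (32 * pc v k) =
      64 ^ 5 * ∑ e : Fin 5 → Bool, ∑ x, fj c j x * fj c j (x + sv v e) := fun j => corr_signs _ v
    have h2 : ∀ e : Fin 5 → Bool, ∑ j, ∑ x, fj c j x * fj c j (x + sv v e) =
        -(1 / 10) * ∏ i, (K (v i) : ℝ) := by
      intro e
      rw [Finset.sum_comm, ← sum_HH v e, Finset.mul_sum]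
      refine Finset.sum_congr rfl fun x _ => ?_
      rw [sum_j]
      by_cases hx : Hw x = 0
      · rw [hx]; ring
      by_cases hy : Hw (x + sv v e) = 0
      · rw [hy]; ring
      rw [if_neg (hc _ _ (unit_dist hv hs e x hx hy))]
      ring
    have h3 : ∑ k, (∑ j, ‖Fh (fj c j) k‖ ^ 2) / 64 ^ 5 * pc v k =
        (∑ j, ∑ k, ‖Fh (fj c j) k‖ ^ 2 * (32 * pc v k)) / (64 ^ 5 * 32) := by
      rw [Finset.sum_comm, Finset.sum_div]
      refine Finset.sum_congr rfl fun k _ => ?_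
      rw [← Finset.sum_mul]
      ring
    rw [h3, Finset.sum_congr rfl (fun j _ => h1 j), ← Finset.mul_sum, Finset.sum_comm,
      Finset.sum_congr rfl (fun e _ => h2 e), Finset.sum_const]
    have h4 : (Finset.univ : Finset (Fin 5 → Bool)).card = 32 := by decide
    rw [h4, nsmul_eq_mul]
    push_cast
    ring

end Pool.Agent.H90.Q5
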