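import Mathlib

/-!
# A table of cosines
-/

namespace Pool.Agent.H90.Q5

open scoped Real

/-- `cos (2 π m / 64)` -/
noncomputable def Cm (m : ℕ) : ℝ := Real.cos (2 * π * (m : ℕ) / 64)

lemma Cm_two (m : ℕ) : Cm (2 * m) = 2 * Cm m ^ 2 - 1 := by
  unfold Cm
  rw [← Real.cos_two_mul]
  congr 1
  push_cast
  ring

lemma Cm_nonneg {m : ℕ} (hm : m ≤ 16) : 0 ≤ Cm m := by
  unfold Cm
  have h1 : (m : ℝ) ≤ 16 := by exact_mod_cast hm
  have hp := Real.pi_pos
  have h0 : (0 : ℝ) ≤ m := Nat.cast_nonneg m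
  apply Real.cos_nonneg_of_neg_pi_div_two_le_of_le
  · have : 0 ≤ 2 * π * (m : ℝ) / 64 := by positivity
    linarith
  · have : π * (m : ℝ) ≤ π * 16 := mul_le_mul_of_nonneg_left h1 hp.le
    linarith

lemma Cm_refl {m : ℕ} (hm : m ≤ 32) : Cm (32 - m) = -Cm m := by
  unfold Cm
  rw [← Real.cos_pi_sub, Nat.cast_sub hm]
  congr 1
  push_cast
  ring

lemma Cm_refl2 {m : ℕ} (hm : m ≤ 64) : Cm (64 - m) = Cm m := by
  unfold Cm
  rw [← Real.cos_two_pi_sub, Nat.cast_sub hm]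
  congr 1
  push_cast
  ring

lemma Cm_period (m q : ℕ) : Cm (m + 64 * q) = Cm m := by
  unfold Cm
  rw [← Real.cos_add_nat_mul_two_pi (2 * π * (m : ℕ) / 64) q]
  congr 1
  push_cast
  ring

lemma Cm_mod (m : ℕ) : Cm (m % 64) = Cm m := by
  conv_rhs => rw [← Nat.mod_add_div m 64]
  rw [Cm_period]

lemma half {m : ℕ} (hm : m ≤ 16) {lo hi lo' hi' : ℝ} (h : lo ≤ Cm (2 * m) ∧ Cm (2 * m) ≤ hi)
    (h3 : 0 ≤ lo' ∧ 0 ≤ hi' ∧ 2 * lo' ^ 2 - 1 ≤ lo ∧ hi ≤ 2 * hi' ^ 2 - 1) : lo' ≤ Cm m ∧ Cm m ≤ hi' := by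
  obtain ⟨h1, h2⟩ := h
  obtain ⟨h3, h4, h5, h6⟩ := h3
  have h0 := Cm_nonneg hm
  rw [Cm_two] at h1 h2
  constructor
  · by_contra hc
    push Not at hc
    nlinarith
  · by_contra hc
    push Not at hc
    nlinarith

lemma refl' {m n : ℕ} (hmn : m + n = 32) {lo hi : ℝ} (h : lo ≤ Cm m ∧ Cm m ≤ hi) :
    -hi ≤ Cm n ∧ Cm n ≤ -lo := by
  have h1 : n = 32 - m := by omega
  rw [h1, Cm_refl (by omega)]
  constructor <;> linarith [h.1, h.2]

lemma C16 : (0 : ℝ) ≤ Cm 16 ∧ Cm 16 ≤ 0 := by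
  have h : Cm 16 = 0 := by
    unfold Cm
    rw [← Real.cos_pi_div_two]
    congr 1
    push_cast
    ring
  rw [h]
  exact ⟨le_refl _, le_refl _⟩

lemma C8 : (0.70710678019 : ℝ) ≤ Cm 8 ∧ Cm 8 ≤ 0.70710678219 :=
  half (m := 8) (by norm_num) C16 (by norm_num)

lemma C4 : (0.92387952251 : ℝ) ≤ Cm 4 ∧ Cm 4 ≤ 0.92387954251 :=
  half (m := 4) (by norm_num) C8 (by norm_num)

lemma C12 : (0.38268342237 : ℝ) ≤ Cm 12 ∧ Cm 12 ≤ 0.38268344237 :=
  half (m := 12) (by norm_num) (refl' (by norm_num) C8) (by norm_num)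

lemma C2 : (0.98078518040 : ℝ) ≤ Cm 2 ∧ Cm 2 ≤ 0.98078538040 :=
  half (m := 2) (by norm_num) C4 (by norm_num)

lemma C14 : (0.19509022202 : ℝ) ≤ Cm 14 ∧ Cm 14 ≤ 0.19509042202 :=
  half (m := 14) (by norm_num) (refl' (by norm_num) C4) (by norm_num)

lemma C6 : (0.83146951230 : ℝ) ≤ Cm 6 ∧ Cm 6 ≤ 0.83146971230 :=
  half (m := 6) (by norm_num) C12 (by norm_num)

lemma C10 : (0.55557013302 : ℝ) ≤ Cm 10 ∧ Cm 10 ≤ 0.55557033302 :=
  half (m := 10) (by norm_num) (refl' (by norm_num) C12) (by norm_num)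

lemma C1 : (0.99518372667 : ℝ) ≤ Cm 1 ∧ Cm 1 ≤ 0.99518572667 :=
  half (m := 1) (by norm_num) C2 (by norm_num)

lemma C15 : (0.09801614033 : ℝ) ≤ Cm 15 ∧ Cm 15 ≤ 0.09801814033 :=
  half (m := 15) (by norm_num) (refl' (by norm_num) C2) (by norm_num)

lemma C7 : (0.77300945336 : ℝ) ≤ Cm 7 ∧ Cm 7 ≤ 0.77301145336 :=
  half (m := 7) (by norm_num) C14 (by norm_num)

lemma C9 : (0.63439228416 : ℝ) ≤ Cm 9 ∧ Cm 9 ≤ 0.63439428416 :=
  half (m := 9) (by norm_num) (refl' (by norm_num) C14) (by norm_num)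

lemma C3 : (0.95693933573 : ℝ) ≤ Cm 3 ∧ Cm 3 ≤ 0.95694133573 :=
  half (m := 3) (by norm_num) C6 (by norm_num)

lemma C13 : (0.29028367725 : ℝ) ≤ Cm 13 ∧ Cm 13 ≤ 0.29028567725 :=
  half (m := 13) (by norm_num) (refl' (by norm_num) C6) (by norm_num)

lemma C5 : (0.88192026435 : ℝ) ≤ Cm 5 ∧ Cm 5 ≤ 0.88192226435 :=
  half (m := 5) (by norm_num) C10 (by norm_num)

lemma C11 : (0.47139573683 : ℝ) ≤ Cm 11 ∧ Cm 11 ≤ 0.47139773683 :=
  half (m := 11) (by norm_num) (refl' (by norm_num) C10) (by norm_num)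

lemma C0 : (1 : ℝ) ≤ Cm 0 ∧ Cm 0 ≤ 1 := by
  have h : Cm 0 = 1 := by
    unfold Cm
    simp
  rw [h]
  exact ⟨le_refl _, le_refl _⟩

/-- the table of `32768 cos (2 π m / 64)` -/
def cL : List ℤ :=
  [32768, 32610, 32138, 31357, 30274, 28899, 27246, 25330,
    23170, 20788, 18205, 15447, 12540, 9512, 6393, 3212,
    0, -3212, -6393, -9512, -12540, -15447, -18205, -20788,
    -23170, -25330, -27246, -28899, -30274, -31357, -32138, -32610,
    -32768, -32610, -32138, -31357, -30274, -28899, -27246, -25330,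
    -23170, -20788, -18205, -15447, -12540, -9512, -6393, -3212,
    0, 3212, 6393, 9512, 12540, 15447, 18205, 20788,
    23170, 25330, 27246, 28899, 30274, 31357, 32138, 32610]

/-- the rounded cosines -/
def cT (m : ℕ) : ℤ := cL.getD (m % 64) 0

lemma cT_mod (m : ℕ) : cT (m % 64) = cT m := by
  unfold cT
  rw [Nat.mod_mod]

lemma close_of {m : ℕ} {lo hi t : ℝ} (h : lo ≤ Cm m ∧ Cm m ≤ hi) (h1 : t - 1 ≤ 32768 * lo)
    (h2 : 32768 * hi ≤ t + 1) : |32768 * Cm m - t| ≤ 1 := by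
  rw [abs_le]
  constructor <;> linarith [h.1, h.2]

lemma close16 (m : ℕ) (hm : m ≤ 16) : |32768 * Cm m - (cT m : ℝ)| ≤ 1 := by
  interval_cases m
  · have h : cT 0 = 32768 := rfl
    rw [h]
    exact close_of C0 (by norm_num) (by norm_num)
  · have h : cT 1 = 32610 := rfl
    rw [h]
    exact close_of C1 (by norm_num) (by norm_num)
  · have h : cT 2 = 32138 := rfl
    rw [h]
    exact close_of C2 (by norm_num) (by norm_num)
  · have h : cT 3 = 31357 := rfl
    rw [h]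
    exact close_of C3 (by norm_num) (by norm_num)
  · have h : cT 4 = 30274 := rfl
    rw [h]
    exact close_of C4 (by norm_num) (by norm_num)
  · have h : cT 5 = 28899 := rfl
    rw [h]
    exact close_of C5 (by norm_num) (by norm_num)
  · have h : cT 6 = 27246 := rfl
    rw [h]
    exact close_of C6 (by norm_num) (by norm_num)
  · have h : cT 7 = 25330 := rfl
    rw [h]
    exact close_of C7 (by norm_num) (by norm_num)
  · have h : cT 8 = 23170 := rfl
    rw [h]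
    exact close_of C8 (by norm_num) (by norm_num)
  · have h : cT 9 = 20788 := rfl
    rw [h]
    exact close_of C9 (by norm_num) (by norm_num)
  · have h : cT 10 = 18205 := rfl
    rw [h]
    exact close_of C10 (by norm_num) (by norm_num)
  · have h : cT 11 = 15447 := rfl
    rw [h]
    exact close_of C11 (by norm_num) (by norm_num)
  · have h : cT 12 = 12540 := rfl
    rw [h]
    exact close_of C12 (by norm_num) (by norm_num)
  · have h : cT 13 = 9512 := rfl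
    rw [h]
    exact close_of C13 (by norm_num) (by norm_num)
  · have h : cT 14 = 6393 := rfl
    rw [h]
    exact close_of C14 (by norm_num) (by norm_num)
  · have h : cT 15 = 3212 := rfl
    rw [h]
    exact close_of C15 (by norm_num) (by norm_num)
  · have h : cT 16 = 0 := rfl
    rw [h]
    exact close_of C16 (by norm_num) (by norm_num)

lemma cT_refl : ∀ m < 33, cT (32 - m) = -cT m := by decide

lemma cT_refl2 : ∀ m < 65, cT (64 - m) = cT m := by decide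

theorem cT_close (m : ℕ) : |32768 * Cm m - (cT m : ℝ)| ≤ 1 := by
  rw [← Cm_mod, ← cT_mod]
  have hm : m % 64 < 64 := Nat.mod_lt _ (by norm_num)
  generalize m % 64 = r at hm
  have h32 : ∀ s ≤ 32, |32768 * Cm s - (cT s : ℝ)| ≤ 1 := by
    intro s hs
    by_cases h : s ≤ 16
    · exact close16 s h
    · have h1 := close16 (32 - s) (by omega)
      rw [Cm_refl hs, cT_refl s (by omega)] at h1
      push_cast at h1
      rw [← abs_neg]
      convert h1 using 2
      ring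
  by_cases h : r ≤ 32
  · exact h32 r h
  · have h1 := h32 (64 - r) (by omega)
    rwa [Cm_refl2 (by omega), cT_refl2 r (by omega)] at h1

lemma cT_abs (m : ℕ) : |(cT m : ℝ)| ≤ 32768 := by
  have h : ∀ r < 64, |cT r| ≤ 32768 := by decide
  have h1 := h (m % 64) (Nat.mod_lt _ (by norm_num))
  rw [cT_mod] at h1
  exact_mod_cast h1

lemma Cm_abs (m : ℕ) : |32768 * Cm m| ≤ 32768 := by
  have h := Real.abs_cos_le_one (2 * π * (m : ℕ) / 64)
  rw [abs_mul]
  unfold Cm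
  rw [abs_of_pos (by norm_num : (0 : ℝ) < 32768)]
  linarith

end Pool.Agent.H90.Q5
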