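import Mathlib

/-!
# Correlations and characters on `(ZMod 64)^5`
-/

namespace Pool.Agent.H90.Q5

open Finset
open scoped ComplexConjugate

/-- the group -/
abbrev G5 : Type := Fin 5 → ZMod 64

/-- the characters of the group, in product form -/
noncomputable def ch (k x : G5) : ℂ := ∏ i, ZMod.stdAddChar (N := 64) (k i * x i)

lemma ch_add (k x y : G5) : ch k (x + y) = ch k x * ch k y := by
  unfold ch
  rw [← Finset.prod_mul_distrib]
  refine Finset.prod_congr rfl fun i _ => ?_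
  rw [Pi.add_apply, mul_add, AddChar.map_add_eq_mul]

lemma ch_neg (k x : G5) : ch k (-x) = conj (ch k x) := by
  unfold ch
  rw [map_prod]
  refine Finset.prod_congr rfl fun i _ => ?_
  rw [Pi.neg_apply, mul_neg, AddChar.map_neg_eq_conj]

lemma sum_ch (z : G5) : ∑ k, ch k z = if z = 0 then (64 : ℂ) ^ 5 else 0 := by
  have h1 : ∑ k : G5, ch k z = ∏ i, ∑ u : ZMod 64, ZMod.stdAddChar (N := 64) (u * z i) := by
    rw [Finset.prod_univ_sum, Fintype.piFinset_univ]
    rfl
  have h2 : ∀ i, ∑ u : ZMod 64, ZMod.stdAddChar (N := 64) (u * z i) =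
      if z i = 0 then (64 : ℂ) else 0 := by
    intro i
    rw [AddChar.sum_mulShift (z i) (ZMod.isPrimitive_stdAddChar 64)]
    split_ifs
    · simp
    · simp
  rw [h1, Finset.prod_congr rfl (fun i _ => h2 i)]
  split_ifs with h
  · subst h
    simp
  · obtain ⟨i, hi⟩ : ∃ i, z i ≠ 0 := by
      by_contra hc
      push Not at hc
      exact h (funext hc)
    exact Finset.prod_eq_zero (Finset.mem_univ i) (if_neg hi)

/-- the transform -/
noncomputable def Fh (f : G5 → ℝ) (k : G5) : ℂ := ∑ x, (f x : ℂ) * ch k x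

theorem corr (f : G5 → ℝ) (a : G5) :
    ∑ k, ((‖Fh f k‖ ^ 2 : ℝ) : ℂ) * ch k a = (64 : ℂ) ^ 5 * ((∑ x, f x * f (x + a) : ℝ) : ℂ) := by
  have h1 : ∀ k, ((‖Fh f k‖ ^ 2 : ℝ) : ℂ) * ch k a =
      ∑ x, ∑ y, ((f x : ℂ) * f y) * ch k (x + a - y) := by
    intro k
    have h2 : ((‖Fh f k‖ ^ 2 : ℝ) : ℂ) = Fh f k * conj (Fh f k) := by
      rw [Complex.mul_conj, Complex.normSq_eq_norm_sq]
    rw [h2]
    unfold Fh
    rw [map_sum, Finset.sum_mul_sum, Finset.sum_mul]
    refine Finset.sum_congr rfl fun x _ => ?_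
    rw [Finset.sum_mul]
    refine Finset.sum_congr rfl fun y _ => ?_
    rw [map_mul, Complex.conj_ofReal, sub_eq_add_neg, ch_add, ch_add, ch_neg]
    ring
  rw [Finset.sum_congr rfl (fun k _ => h1 k), Finset.sum_comm]
  push_cast
  rw [Finset.mul_sum]
  refine Finset.sum_congr rfl fun x _ => ?_
  rw [Finset.sum_comm]
  have h3 : ∀ y, ∑ k, ((f x : ℂ) * f y) * ch k (x + a - y) =
      if y = x + a then (64 : ℂ) ^ 5 * ((f x : ℂ) * f (x + a)) else 0 := by
    intro y
    rw [← Finset.mul_sum, sum_ch]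
    by_cases h : y = x + a
    · rw [if_pos h, h, sub_self, if_pos rfl]
      ring
    · rw [if_neg h, if_neg (fun h' => h (sub_eq_zero.mp h').symm), mul_zero]
  rw [Finset.sum_congr rfl (fun y _ => h3 y), Finset.sum_ite_eq' Finset.univ (x + a),
    if_pos (Finset.mem_univ _)]

end Pool.Agent.H90.Q5
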