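import Pool.Agent.H90.Q5.ChkA
import Pool.Agent.H90.Q5.ChkB
import Pool.Agent.H90.Q5.ChkC
import Pool.Agent.H90.Q5.ChkD
import Pool.Agent.H90.Q5.Bnd

/-!
# The lower bound for the polynomial at the cosines
-/

namespace Pool.Agent.H90.Q5

theorem chk_all : ∀ k < 33, chk (List.drop k rows) = true := by
  intro k hk
  interval_cases k
  · exact chk_0
  · exact chk_1
  · exact chk_2
  · exact chk_3
  · exact chk_4
  · exact chk_5
  · exact chk_6
  · exact chk_7
  · exact chk_8
  · exact chk_9
  · exact chk_10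
  · exact chk_11
  · exact chk_12
  · exact chk_13
  · exact chk_14
  · exact chk_15
  · exact chk_16
  · exact chk_17
  · exact chk_18
  · exact chk_19
  · exact chk_20
  · exact chk_21
  · exact chk_22
  · exact chk_23
  · exact chk_24
  · exact chk_25
  · exact chk_26
  · exact chk_27
  · exact chk_28
  · exact chk_29
  · exact chk_30
  · exact chk_31
  · exact chk_32

theorem rows_length : rows.length = 33 := by decide +kernel

/-- the entries of the table -/
theorem rows_get : ∀ k < 33, ∀ n < 9, ((rows.getD k (Row.mk 0 0 0 0 0 0 0 0)).get n : ℤ) %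
    340282366920938463463374607431768211456 =
    cT (n * k) % 340282366920938463463374607431768211456 := by decide +kernel

theorem drop_eq {k : ℕ} (hk : k < 33) : List.drop k rows =
    rows.getD k (Row.mk 0 0 0 0 0 0 0 0) :: List.drop (k + 1) rows := by
  rw [List.drop_eq_getElem_cons (by rw [rows_length]; exact hk),
    List.getD_eq_getElem _ _ (by rw [rows_length]; exact hk)]

theorem drop_suf {k l : ℕ} (hkl : k ≤ l) : List.drop l rows <:+ List.drop k rows := by
  obtain ⟨d, rfl⟩ := Nat.exists_eq_add_of_le hkl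
  rw [← List.drop_drop]
  exact List.drop_suffix _ _

theorem row_cast {M : ℕ} (hM : M = 340282366920938463463374607431768211456) {k : ℕ} (hk : k < 33)
    {n : ℕ} (hn : n ≤ 8) :
    ((((rows.getD k (Row.mk 0 0 0 0 0 0 0 0)).get n : ℕ)) : ZMod M) =
    ((cT (n * k) : ℤ) : ZMod M) := by
  have h := rows_get k hk n (by omega)
  have h7 : (M : ℤ) = 340282366920938463463374607431768211456 := by rw [hM]; rfl
  rw [← h7] at h
  have h2 := (ZMod.intCast_eq_intCast_iff' _ _ M).mpr h
  rw [Int.cast_natCast] at h2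
  exact h2

/-- sorted indices -/
theorem lower_sorted {k : Fin 5 → ℕ} (hk : ∀ i, k i ≤ 32) (hm : Monotone k) :
    -226956933166715148970229760 ≤ Rs (fun i n => cT (n * k i)) := by
  have m01 : k 0 ≤ k 1 := hm (by decide)
  have m12 : k 1 ≤ k 2 := hm (by decide)
  have m23 : k 2 ≤ k 3 := hm (by decide)
  have m34 : k 3 ≤ k 4 := hm (by decide)
  have b : ∀ i, k i < 33 := fun i => Nat.lt_succ_of_le (hk i)
  have hc := chk_all (k 0) (b 0)
  have h2 := drop_suf m01
  have h3 := drop_suf m12
  have h4 := drop_suf m23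
  have h5 := drop_suf m34
  rw [drop_eq (b 0)] at hc h2
  rw [drop_eq (b 1)] at h2 h3
  rw [drop_eq (b 2)] at h3 h4
  rw [drop_eq (b 3)] at h4 h5
  rw [drop_eq (b 4)] at h5
  obtain ⟨M, hM⟩ : ∃ M : ℕ, M = 340282366920938463463374607431768211456 := ⟨_, rfl⟩
  have hA : ((340282366920938463463374607431768211456 : ℕ) : ZMod M) = 0 := by
    rw [← hM]
    exact ZMod.natCast_self _
  obtain ⟨N, hN, hN2⟩ := chain (A := ZMod M) hA hc h2 h3 h4 h5
  refine Rs_lower hM (fun i n => cT_absZ _) hN ?_
  rw [hN2]
  refine congrArg _ (Rs_congr fun i n hn => ?_)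
  fin_cases i
  · exact row_cast hM (b 0) hn
  · exact row_cast hM (b 1) hn
  · exact row_cast hM (b 2) hn
  · exact row_cast hM (b 3) hn
  · exact row_cast hM (b 4) hn

theorem lower_32 {k : Fin 5 → ℕ} (hk : ∀ i, k i ≤ 32) :
    -226956933166715148970229760 ≤ Rs (fun i n => cT (n * k i)) := by
  have h1 := lower_sorted (k := k ∘ Tuple.sort k) (fun i => hk _) (Tuple.monotone_sort k)
  have h2 := Rs_perm (Tuple.sort k) (fun i n => cT (n * k i))
  rw [← h2]
  exact h1

theorem cT_fold : ∀ k < 64, ∀ n < 9, cT (n * k) = cT (n * min k (64 - k)) := by decide +kernel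

theorem lower_all (k : Fin 5 → ZMod 64) :
    -226956933166715148970229760 ≤ Rs (fun i n => cT (n * (k i).val)) := by
  have h1 := lower_32 (k := fun i => min (k i).val (64 - (k i).val)) (fun i => by
    have := ZMod.val_lt (k i)
    omega)
  refine h1.trans (le_of_eq ?_)
  refine Rs_congr fun i n hn => ?_
  exact (cT_fold _ (ZMod.val_lt (k i)) n (by omega)).symm

end Pool.Agent.H90.Q5
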