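import Pool.Agent.H90.Q5.Low
import Pool.Agent.H90.Q5.Col

/-!
# The contradiction
-/

namespace Pool.Agent.H90.Q5

open Finset
open scoped Real

/-- the vector of an entry of the table -/
def vec (p : ℕ × ℕ × ℕ × ℕ × ℕ × ℕ) : Fin 5 → ℕ :=
  ![p.2.1, p.2.2.1, p.2.2.2.1, p.2.2.2.2.1, p.2.2.2.2.2]

theorem vec_le {p : ℕ × ℕ × ℕ × ℕ × ℕ × ℕ} (hp : p ∈ V) : ∀ i, vec p i ≤ 8 := by
  obtain ⟨h0, h1, h2, h3, h4⟩ := V_le p hp
  intro i
  fin_cases i
  · exact h0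
  · exact h1
  · exact h2
  · exact h3
  · exact h4

theorem vec_sq : ∀ p ∈ V, ∑ i, vec p i ^ 2 = 64 := by decide +kernel

theorem mul_close {a b c d S T e f : ℝ} (ha : |a| ≤ S) (hd : |d| ≤ T) (hab : |a - b| ≤ e)
    (hcd : |c - d| ≤ f) : |a * c - b * d| ≤ S * f + e * T := by
  have h : a * c - b * d = a * (c - d) + (a - b) * d := by ring
  rw [h]
  refine (abs_add_le _ _).trans (add_le_add ?_ ?_)
  · rw [abs_mul]
    exact mul_le_mul ha hcd (abs_nonneg _) ((abs_nonneg _).trans ha)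
  · rw [abs_mul]
    exact mul_le_mul hab hd (abs_nonneg _) ((abs_nonneg _).trans hab)

theorem mul_abs {a b S T : ℝ} (ha : |a| ≤ S) (hb : |b| ≤ T) : |a * b| ≤ S * T := by
  rw [abs_mul]
  exact mul_le_mul ha hb (abs_nonneg _) ((abs_nonneg _).trans ha)

theorem prod_close {a b : Fin 5 → ℝ} (ha : ∀ i, |a i| ≤ 32768) (hb : ∀ i, |b i| ≤ 32768)
    (h : ∀ i, |a i - b i| ≤ 1) :
    |a 0 * a 1 * a 2 * a 3 * a 4 - b 0 * b 1 * b 2 * b 3 * b 4| ≤ 5 * 32768 ^ 4 := by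
  have h1 := mul_close (ha 0) (hb 1) (h 0) (h 1)
  have g1 := mul_abs (ha 0) (ha 1)
  have h2 := mul_close g1 (hb 2) h1 (h 2)
  have g2 := mul_abs g1 (ha 2)
  have h3 := mul_close g2 (hb 3) h2 (h 3)
  have g3 := mul_abs g2 (ha 3)
  have h4 := mul_close g3 (hb 4) h3 (h 4)
  refine h4.trans (le_of_eq ?_)
  norm_num

theorem list_sum_close (L : List (ℕ × ℕ × ℕ × ℕ × ℕ × ℕ)) (f g : ℕ × ℕ × ℕ × ℕ × ℕ × ℕ → ℝ)
    (E : ℝ) (h : ∀ p, |f p - g p| ≤ E) :
    (L.map fun p => (p.1 : ℝ) * g p).sum - (L.map fun p => (p.1 : ℝ)).sum * E ≤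
      (L.map fun p => (p.1 : ℝ) * f p).sum := by
  induction L with
  | nil => simp
  | cons a L ih =>
    simp only [List.map_cons, List.sum_cons]
    have h1 := (abs_le.mp (h a)).1
    have h2 : (a.1 : ℝ) * (-E) ≤ a.1 * (f a - g a) :=
      mul_le_mul_of_nonneg_left h1 (Nat.cast_nonneg _)
    linarith

theorem V_sumR : (V.map fun p => (p.1 : ℝ)).sum = 60545 := by
  have h := congrArg (Int.castRingHom ℝ) V_sum
  rw [map_list_sum, List.map_map] at h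
  refine Eq.trans (congrArg List.sum (List.map_congr_left fun p _ => ?_)) (h.trans (by simp))
  simp

theorem pc_vec (p : ℕ × ℕ × ℕ × ℕ × ℕ × ℕ) (k : G5) : 32768 ^ 5 * pc (vec p) k =
    (32768 * Cm (p.2.1 * (k 0).val)) * (32768 * Cm (p.2.2.1 * (k 1).val)) *
      (32768 * Cm (p.2.2.2.1 * (k 2).val)) * (32768 * Cm (p.2.2.2.2.1 * (k 3).val)) *
      (32768 * Cm (p.2.2.2.2.2 * (k 4).val)) := by
  have h : pc (vec p) k = Cm (p.2.1 * (k 0).val) * Cm (p.2.2.1 * (k 1).val) *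
      Cm (p.2.2.2.1 * (k 2).val) * Cm (p.2.2.2.2.1 * (k 3).val) *
      Cm (p.2.2.2.2.2 * (k 4).val) := by
    unfold pc
    rw [Fin.prod_univ_five]
    rfl
  rw [h]
  ring

/-- the pointwise bound -/
theorem pc_lower (k : G5) : -6017 ≤ (V.map fun p => (p.1 : ℝ) * pc (vec p) k).sum := by
  have h1 := lower_all k
  have h2 : -(226956933166715148970229760 : ℝ) ≤ ((Rs (fun i n => cT (n * (k i).val)) : ℤ) : ℝ) := by
    exact_mod_cast h1
  have h3 : ((Rs (fun i n => cT (n * (k i).val)) : ℤ) : ℝ) =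
      Rs (fun i n => ((cT (n * (k i).val) : ℤ) : ℝ)) :=
    map_Rs (Int.castRingHom ℝ) (fun i n => cT (n * (k i).val))
  rw [h3] at h2
  have h4 := list_sum_close V
    (fun p => (32768 * Cm (p.2.1 * (k 0).val)) * (32768 * Cm (p.2.2.1 * (k 1).val)) *
      (32768 * Cm (p.2.2.2.1 * (k 2).val)) * (32768 * Cm (p.2.2.2.2.1 * (k 3).val)) *
      (32768 * Cm (p.2.2.2.2.2 * (k 4).val)))
    (fun p => ((cT (p.2.1 * (k 0).val) : ℤ) : ℝ) * ((cT (p.2.2.1 * (k 1).val) : ℤ) : ℝ) *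
      ((cT (p.2.2.2.1 * (k 2).val) : ℤ) : ℝ) * ((cT (p.2.2.2.2.1 * (k 3).val) : ℤ) : ℝ) *
      ((cT (p.2.2.2.2.2 * (k 4).val) : ℤ) : ℝ)) (5 * 32768 ^ 4) (fun p => by
        have := prod_close (a := fun i => 32768 * Cm (vec p i * (k i).val))
          (b := fun i => ((cT (vec p i * (k i).val) : ℤ) : ℝ)) (fun i => Cm_abs _)
          (fun i => cT_abs _) (fun i => cT_close _)
        exact this)
  rw [V_sumR] at h4
  have h5 : (V.map fun p => (p.1 : ℝ) * ((32768 * Cm (p.2.1 * (k 0).val)) *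
      (32768 * Cm (p.2.2.1 * (k 1).val)) *
      (32768 * Cm (p.2.2.2.1 * (k 2).val)) * (32768 * Cm (p.2.2.2.2.1 * (k 3).val)) *
      (32768 * Cm (p.2.2.2.2.2 * (k 4).val)))).sum =
      32768 ^ 5 * (V.map fun p => (p.1 : ℝ) * pc (vec p) k).sum := by
    rw [← List.sum_map_mul_left]
    refine congrArg List.sum (List.map_congr_left fun p _ => ?_)
    rw [← pc_vec]
    ring
  rw [h5] at h4
  change Rs (fun i n => ((cT (n * (k i).val) : ℤ) : ℝ)) - _ ≤ _ at h4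
  generalize (V.map fun p => (p.1 : ℝ) * pc (vec p) k).sum = X at *
  generalize Rs (fun i n => ((cT (n * (k i).val) : ℤ) : ℝ)) = Y at *
  norm_num at h4 h2
  linarith

/-- the autocorrelation -/
def Kt (n : ℕ) : ℕ :=
  ([285656, 285216, 283952, 281886, 279050, 275487, 271238, 266336, 260838] : List ℕ).getD n 0

theorem K_eq : ∀ n < 9, K n = Kt n := by decide +kernel

theorem numeric : 9 * 6017 * (Kt 0 : ℤ) ^ 5 < Rs (fun _ n => (Kt n : ℤ)) := by decide +kernel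

theorem sum_list (L : List (ℕ × ℕ × ℕ × ℕ × ℕ × ℕ)) (μ : G5 → ℝ)
    (f : G5 → ℕ × ℕ × ℕ × ℕ × ℕ × ℕ → ℝ) :
    ∑ k, μ k * (L.map fun p => (p.1 : ℝ) * f k p).sum =
      (L.map fun p => (p.1 : ℝ) * ∑ k, μ k * f k p).sum := by
  induction L with
  | nil => simp
  | cons a L ih =>
    simp only [List.map_cons, List.sum_cons]
    rw [← ih, Finset.mul_sum, ← Finset.sum_add_distrib]
    exact Finset.sum_congr rfl fun k _ => by ring

/-- every colouring of rational 5-space with ten colours has a monochromatic pair at distance one -/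
theorem main (c : (Fin 5 → ℚ) → Fin 10) :
    ∃ x y : Fin 5 → ℚ, ∑ i, (x i - y i) ^ 2 = 1 ∧ c x = c y := by
  by_contra hcon
  push Not at hcon
  obtain ⟨μ, hμ0, hμ1, hμ2⟩ := exists_mu c hcon
  have h1 : -6017 * (9 / 10 * (K 0 : ℝ) ^ 5) ≤
      ∑ k, μ k * (V.map fun p => (p.1 : ℝ) * pc (vec p) k).sum := by
    rw [← hμ1, Finset.mul_sum]
    refine Finset.sum_le_sum fun k _ => ?_
    rw [mul_comm]
    exact mul_le_mul_of_nonneg_left (pc_lower k) (hμ0 k)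
  rw [sum_list V μ (fun k p => pc (vec p) k)] at h1
  have h2 : (V.map fun p => (p.1 : ℝ) * ∑ k, μ k * pc (vec p) k).sum =
      -(1 / 10) * Rs (fun _ n => (K n : ℝ)) := by
    unfold Rs
    rw [← List.sum_map_mul_left]
    refine congrArg List.sum (List.map_congr_left fun p hp => ?_)
    rw [hμ2 (vec p) (vec_le hp) (vec_sq p hp), Fin.prod_univ_five]
    change (p.1 : ℝ) * (-(1 / 10) * ((K p.2.1 : ℝ) * K p.2.2.1 * K p.2.2.2.1 * K p.2.2.2.2.1 *
      K p.2.2.2.2.2)) = _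
    ring
  rw [h2] at h1
  have h3 : Rs (fun (_ : Fin 5) n => (K n : ℝ)) = Rs (fun _ n => ((Kt n : ℤ) : ℝ)) := by
    refine Rs_congr fun i n hn => ?_
    rw [K_eq n (by omega)]
    simp
  have h4 : Rs (fun (_ : Fin 5) n => ((Kt n : ℤ) : ℝ)) =
      ((Rs (fun (_ : Fin 5) n => (Kt n : ℤ)) : ℤ) : ℝ) :=
    (map_Rs (Int.castRingHom ℝ) (fun (_ : Fin 5) n => (Kt n : ℤ))).symm
  have h5 : ((9 * 6017 * (Kt 0 : ℤ) ^ 5 : ℤ) : ℝ) <
      ((Rs (fun (_ : Fin 5) n => (Kt n : ℤ)) : ℤ) : ℝ) := by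
    exact_mod_cast numeric
  rw [h3, h4, K_eq 0 (by norm_num)] at h1
  push_cast at h5 h1
  linarith

end Pool.Agent.H90.Q5
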