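import Pool.Agent.H90.Q5.Four

/-!
# Averages over the signs
-/

namespace Pool.Agent.H90.Q5

open Finset
open scoped ComplexConjugate Real

/-- the vector `v` with signs -/
def sv (v : Fin 5 → ℕ) (e : Fin 5 → Bool) : G5 := fun i => if e i then (v i : ZMod 64) else -(v i : ZMod 64)

/-- the product of cosines -/
noncomputable def pc (v : Fin 5 → ℕ) (k : G5) : ℝ := ∏ i, Real.cos (2 * π * (v i * (k i).val : ℕ) / 64)

lemma two_cos (n : ℕ) (k : ZMod 64) :
    ZMod.stdAddChar (N := 64) (k * (n : ZMod 64)) + ZMod.stdAddChar (N := 64) (k * -(n : ZMod 64)) =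
      2 * ((Real.cos (2 * π * (n * k.val : ℕ) / 64) : ℝ) : ℂ) := by
  have hk : (k.val : ZMod 64) = k := ZMod.natCast_zmod_val k
  have h1 : k * (n : ZMod 64) = (((n * k.val : ℕ) : ℤ) : ZMod 64) := by
    push_cast
    rw [hk, mul_comm]
  have h2 : k * -(n : ZMod 64) = ((-((n * k.val : ℕ) : ℤ) : ℤ) : ZMod 64) := by
    rw [mul_neg, h1, Int.cast_neg]
  rw [h2, h1, ZMod.stdAddChar_coe, ZMod.stdAddChar_coe, Complex.ofReal_cos, Complex.cos]
  push_cast
  rw [mul_div_cancel₀ _ (two_ne_zero)]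
  congr 2
  · ring
  · ring

theorem sum_signs (v : Fin 5 → ℕ) (k : G5) :
    ∑ e : Fin 5 → Bool, ch k (sv v e) = 32 * ((pc v k : ℝ) : ℂ) := by
  have h1 : ∏ i, ∑ b : Bool, ZMod.stdAddChar (N := 64)
      (k i * (if b then (v i : ZMod 64) else -(v i : ZMod 64))) =
      ∑ e : Fin 5 → Bool, ch k (sv v e) := by
    rw [Finset.prod_univ_sum, Fintype.piFinset_univ]
    rfl
  rw [← h1]
  have h2 : ∀ i, ∑ b : Bool, ZMod.stdAddChar (N := 64)
      (k i * (if b then (v i : ZMod 64) else -(v i : ZMod 64))) =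
      2 * ((Real.cos (2 * π * (v i * (k i).val : ℕ) / 64) : ℝ) : ℂ) := by
    intro i
    rw [Fintype.sum_bool, ← two_cos]
    simp
  rw [Finset.prod_congr rfl (fun i _ => h2 i), Finset.prod_mul_distrib, Finset.prod_const,
    Finset.card_univ, Fintype.card_fin, pc]
  push_cast
  norm_num

/-- the average of the correlations of `f` over the signs -/
theorem corr_signs (f : G5 → ℝ) (v : Fin 5 → ℕ) :
    ∑ k, ‖Fh f k‖ ^ 2 * (32 * pc v k) =
      64 ^ 5 * ∑ e : Fin 5 → Bool, ∑ x, f x * f (x + sv v e) := by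
  have h1 : ((∑ k, ‖Fh f k‖ ^ 2 * (32 * pc v k) : ℝ) : ℂ) =
      ((64 ^ 5 * ∑ e : Fin 5 → Bool, ∑ x, f x * f (x + sv v e) : ℝ) : ℂ) := by
    have h2 : ∑ e : Fin 5 → Bool, ∑ k, ((‖Fh f k‖ ^ 2 : ℝ) : ℂ) * ch k (sv v e) =
        ∑ e : Fin 5 → Bool, (64 : ℂ) ^ 5 * ((∑ x, f x * f (x + sv v e) : ℝ) : ℂ) :=
      Finset.sum_congr rfl fun e _ => corr f (sv v e)
    rw [Finset.sum_comm] at h2
    rw [Finset.sum_congr rfl (fun k _ => (Finset.mul_sum _ _ _).symm)] at h2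
    rw [Finset.sum_congr rfl (fun k _ => by rw [sum_signs v k])] at h2
    push_cast at h2 ⊢
    rw [h2, Finset.mul_sum]
  exact_mod_cast h1

lemma corr_zero (f : G5 → ℝ) : ∑ k, ‖Fh f k‖ ^ 2 = 64 ^ 5 * ∑ x, f x ^ 2 := by
  have h := corr_signs f (fun _ => 0)
  have h1 : ∀ k, pc (fun _ => 0) k = 1 := by
    intro k
    unfold pc
    simp
  have h2 : ∀ e, sv (fun _ => 0) e = 0 := by
    intro e
    funext i
    unfold sv
    simp
  simp only [h1, h2, add_zero, mul_one] at h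
  rw [Finset.sum_const, ← Finset.sum_mul] at h
  have h3 : (Finset.univ : Finset (Fin 5 → Bool)).card = 32 := by decide
  rw [h3, nsmul_eq_mul] at h
  have h4 : ∑ x, f x * f x = ∑ x, f x ^ 2 := Finset.sum_congr rfl fun x _ => (sq (f x)).symm
  rw [h4] at h
  push_cast at h
  linarith

end Pool.Agent.H90.Q5
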