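import Pool.Agent.H90.Q5.Tab

/-!
# Specification of the kernel computation
-/

namespace Pool.Agent.H90.Q5

variable {A : Type} [CommRing A]

theorem cast_mod (hA : ((340282366920938463463374607431768211456 : ℕ) : A) = 0) (a : ℕ) : ((a % 340282366920938463463374607431768211456 : ℕ) : A) = (a : A) := by
  conv_rhs => rw [← Nat.mod_add_div a 340282366920938463463374607431768211456]
  rw [Nat.cast_add, Nat.cast_mul, hA, zero_mul, add_zero]

theorem l5_spec (hA : ((340282366920938463463374607431768211456 : ℕ) : A) = 0) {e0 e1 e2 e3 e4 e5 e6 e7 e8 c1 c2 c3 c4 c5 c6 c7 c8 : ℕ} {t : List Row}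
    (h : l5 e0 e1 e2 e3 e4 e5 e6 e7 e8 (Row.mk c1 c2 c3 c4 c5 c6 c7 c8) t = true) : ∃ N : ℕ, N ≤ 170141183460469231731687303715884105727 ∧
    (N : A) = 226956933166715148970229760 + (e0 : A) * 32768 + (e1 : A) * (c1 : A) + (e2 : A) * (c2 : A) + (e3 : A) * (c3 : A) + (e4 : A) * (c4 : A) + (e5 : A) * (c5 : A) + (e6 : A) * (c6 : A) + (e7 : A) * (c7 : A) + (e8 : A) * (c8 : A) := by
  refine ⟨(226956933166715148970229760 + e0 * 32768 + e1 * c1 + e2 * c2 + e3 * c3 + e4 * c4 + e5 * c5 + e6 * c6 + e7 * c7 + e8 * c8) % 340282366920938463463374607431768211456, Nat.le_of_ble_eq_true h, ?_⟩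
  rw [cast_mod hA]
  push_cast
  rfl

theorem l4_spec (hA : ((340282366920938463463374607431768211456 : ℕ) : A) = 0) {d00 d04 d08 d11 d12 d13 d15 d16 d17 d22 d23 d24 d25 d26 d27 d33 d35 d36 d37 d44 d46 d55 d56 c1 c2 c3 c4 c5 c6 c7 c8 : ℕ} {t : List Row}
    (h : l4 d00 d04 d08 d11 d12 d13 d15 d16 d17 d22 d23 d24 d25 d26 d27 d33 d35 d36 d37 d44 d46 d55 d56 (Row.mk c1 c2 c3 c4 c5 c6 c7 c8) t = true) : ∃ e0 e1 e2 e3 e4 e5 e6 e7 e8 : ℕ,
    (e0 : A) = (d00 : A) * 32768 + (d04 : A) * (c4 : A) + (d08 : A) * (c8 : A) ∧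
    (e1 : A) = (d11 : A) * (c1 : A) + (d12 : A) * (c2 : A) + (d13 : A) * (c3 : A) + (d15 : A) * (c5 : A) + (d16 : A) * (c6 : A) + (d17 : A) * (c7 : A) ∧
    (e2 : A) = (d12 : A) * (c1 : A) + (d22 : A) * (c2 : A) + (d23 : A) * (c3 : A) + (d24 : A) * (c4 : A) + (d25 : A) * (c5 : A) + (d26 : A) * (c6 : A) + (d27 : A) * (c7 : A) ∧
    (e3 : A) = (d13 : A) * (c1 : A) + (d23 : A) * (c2 : A) + (d33 : A) * (c3 : A) + (d35 : A) * (c5 : A) + (d36 : A) * (c6 : A) + (d37 : A) * (c7 : A) ∧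
    (e4 : A) = (d04 : A) * 32768 + (d24 : A) * (c2 : A) + (d44 : A) * (c4 : A) + (d46 : A) * (c6 : A) ∧
    (e5 : A) = (d15 : A) * (c1 : A) + (d25 : A) * (c2 : A) + (d35 : A) * (c3 : A) + (d55 : A) * (c5 : A) + (d56 : A) * (c6 : A) ∧
    (e6 : A) = (d16 : A) * (c1 : A) + (d26 : A) * (c2 : A) + (d36 : A) * (c3 : A) + (d46 : A) * (c4 : A) + (d56 : A) * (c5 : A) ∧
    (e7 : A) = (d17 : A) * (c1 : A) + (d27 : A) * (c2 : A) + (d37 : A) * (c3 : A) ∧
    (e8 : A) = (d08 : A) * 32768 ∧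
    allSuf (l5 e0 e1 e2 e3 e4 e5 e6 e7 e8) (Row.mk c1 c2 c3 c4 c5 c6 c7 c8 :: t) = true := by
  refine ⟨(d00 * 32768 + d04 * c4 + d08 * c8) % 340282366920938463463374607431768211456, (d11 * c1 + d12 * c2 + d13 * c3 + d15 * c5 + d16 * c6 + d17 * c7) % 340282366920938463463374607431768211456, (d12 * c1 + d22 * c2 + d23 * c3 + d24 * c4 + d25 * c5 + d26 * c6 + d27 * c7) % 340282366920938463463374607431768211456, (d13 * c1 + d23 * c2 + d33 * c3 + d35 * c5 + d36 * c6 + d37 * c7) % 340282366920938463463374607431768211456, (d04 * 32768 + d24 * c2 + d44 * c4 + d46 * c6) % 340282366920938463463374607431768211456, (d15 * c1 + d25 * c2 + d35 * c3 + d55 * c5 + d56 * c6) % 340282366920938463463374607431768211456, (d16 * c1 + d26 * c2 + d36 * c3 + d46 * c4 + d56 * c5) % 340282366920938463463374607431768211456, (d17 * c1 + d27 * c2 + d37 * c3) % 340282366920938463463374607431768211456, (d08 * 32768) % 340282366920938463463374607431768211456,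
    ?_, ?_, ?_, ?_, ?_, ?_, ?_, ?_, ?_, h⟩
  all_goals
    rw [cast_mod hA]
    push_cast
    try first | rfl | norm_num

theorem l3_spec (hA : ((340282366920938463463374607431768211456 : ℕ) : A) = 0) {q00 q04 q08 q11 q12 q13 q15 q16 q17 q22 q23 q24 q25 q26 q27 q33 q35 q36 q37 q44 q46 q55 q56 c1 c2 c3 c4 c5 c6 c7 c8 : ℕ} {t : List Row}
    (h : l3 q00 q04 q08 q11 q12 q13 q15 q16 q17 q22 q23 q24 q25 q26 q27 q33 q35 q36 q37 q44 q46 q55 q56 (Row.mk c1 c2 c3 c4 c5 c6 c7 c8) t = true) : ∃ d00 d04 d08 d11 d12 d13 d15 d16 d17 d22 d23 d24 d25 d26 d27 d33 d35 d36 d37 d44 d46 d55 d56 : ℕ,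
    (d00 : A) = 194 * ((q08 : A) * 32768 + (q00 : A) * (c8 : A)) ∧
    (d04 : A) = 1519 * ((q44 : A) * (c4 : A)) ∧
    (d08 : A) = 194 * ((q00 : A) * 32768) ∧
    (d11 : A) = 233 * ((q37 : A) * (c2 : A) + (q27 : A) * (c3 : A) + (q23 : A) * (c7 : A)) + 332 * ((q56 : A) * (c1 : A) + (q16 : A) * (c5 : A) + (q15 : A) * (c6 : A)) ∧
    (d12 : A) = 233 * ((q37 : A) * (c1 : A) + (q17 : A) * (c3 : A) + (q13 : A) * (c7 : A)) + 249 * ((q55 : A) * (c3 : A) + (q35 : A) * (c5 : A)) ∧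
    (d13 : A) = 233 * ((q27 : A) * (c1 : A) + (q17 : A) * (c2 : A) + (q12 : A) * (c7 : A)) + 301 * ((q36 : A) * (c3 : A) + (q33 : A) * (c6 : A)) + 249 * ((q55 : A) * (c2 : A) + (q25 : A) * (c5 : A)) ∧
    (d15 : A) = 332 * ((q16 : A) * (c1 : A) + (q11 : A) * (c6 : A)) + 249 * ((q35 : A) * (c2 : A) + (q25 : A) * (c3 : A) + (q23 : A) * (c5 : A)) ∧
    (d16 : A) = 332 * ((q15 : A) * (c1 : A) + (q11 : A) * (c5 : A)) + 301 * ((q33 : A) * (c3 : A)) ∧
    (d17 : A) = 233 * ((q23 : A) * (c1 : A) + (q13 : A) * (c2 : A) + (q12 : A) * (c3 : A)) ∧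
    (d22 : A) = 520 * ((q46 : A) * (c2 : A) + (q26 : A) * (c4 : A) + (q24 : A) * (c6 : A)) ∧
    (d23 : A) = 233 * ((q17 : A) * (c1 : A) + (q11 : A) * (c7 : A)) + 249 * ((q55 : A) * (c1 : A) + (q15 : A) * (c5 : A)) ∧
    (d24 : A) = 520 * ((q26 : A) * (c2 : A) + (q22 : A) * (c6 : A)) ∧
    (d25 : A) = 249 * ((q35 : A) * (c1 : A) + (q15 : A) * (c3 : A) + (q13 : A) * (c5 : A)) ∧
    (d26 : A) = 520 * ((q24 : A) * (c2 : A) + (q22 : A) * (c4 : A)) ∧
    (d27 : A) = 233 * ((q13 : A) * (c1 : A) + (q11 : A) * (c3 : A)) ∧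
    (d33 : A) = 301 * ((q36 : A) * (c1 : A) + (q16 : A) * (c3 : A) + (q13 : A) * (c6 : A)) ∧
    (d35 : A) = 249 * ((q25 : A) * (c1 : A) + (q15 : A) * (c2 : A) + (q12 : A) * (c5 : A)) ∧
    (d36 : A) = 301 * ((q33 : A) * (c1 : A) + (q13 : A) * (c3 : A)) ∧
    (d37 : A) = 233 * ((q12 : A) * (c1 : A) + (q11 : A) * (c2 : A)) ∧
    (d44 : A) = 1519 * ((q44 : A) * 32768 + (q04 : A) * (c4 : A)) ∧
    (d46 : A) = 520 * ((q22 : A) * (c2 : A)) ∧
    (d55 : A) = 249 * ((q23 : A) * (c1 : A) + (q13 : A) * (c2 : A) + (q12 : A) * (c3 : A)) ∧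
    (d56 : A) = 332 * ((q11 : A) * (c1 : A)) ∧
    allSuf (l4 d00 d04 d08 d11 d12 d13 d15 d16 d17 d22 d23 d24 d25 d26 d27 d33 d35 d36 d37 d44 d46 d55 d56) (Row.mk c1 c2 c3 c4 c5 c6 c7 c8 :: t) = true := by
  refine ⟨(194 * (q08 * 32768 + q00 * c8)) % 340282366920938463463374607431768211456, (1519 * (q44 * c4)) % 340282366920938463463374607431768211456, (194 * (q00 * 32768)) % 340282366920938463463374607431768211456, (233 * (q37 * c2 + q27 * c3 + q23 * c7) + 332 * (q56 * c1 + q16 * c5 + q15 * c6)) % 340282366920938463463374607431768211456, (233 * (q37 * c1 + q17 * c3 + q13 * c7) + 249 * (q55 * c3 + q35 * c5)) % 340282366920938463463374607431768211456, (233 * (q27 * c1 + q17 * c2 + q12 * c7) + 301 * (q36 * c3 + q33 * c6) + 249 * (q55 * c2 + q25 * c5)) % 340282366920938463463374607431768211456, (332 * (q16 * c1 + q11 * c6) + 249 * (q35 * c2 + q25 * c3 + q23 * c5)) % 340282366920938463463374607431768211456, (332 * (q15 * c1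 + q11 * c5) + 301 * (q33 * c3)) % 340282366920938463463374607431768211456, (233 * (q23 * c1 + q13 * c2 + q12 * c3)) % 340282366920938463463374607431768211456, (520 * (q46 * c2 + q26 * c4 + q24 * c6)) % 340282366920938463463374607431768211456, (233 * (q17 * c1 + q11 * c7) + 249 * (q55 * c1 + q15 * c5)) % 340282366920938463463374607431768211456, (520 * (q26 * c2 + q22 * c6)) % 340282366920938463463374607431768211456, (249 * (q35 * c1 + q15 * c3 + q13 * c5)) % 340282366920938463463374607431768211456, (520 * (q24 * c2 + q22 * c4)) % 340282366920938463463374607431768211456, (233 * (q13 * c1 + q11 * c3)) % 340282366920938463463374607431768211456, (301 * (q36 * c1 + q16 * c3 + q13 * c6)) % 340282366920938463463374607431768211456, (249 * (q25 * c1 + q15 * c2 + q12 * c5)) % 340282366920938463463374607431768211456, (301 * (q33 * c1 + q13 * c3)) % 340282366920938463463374607431768211456, (233 * (q12 * c1 + q11 * c2)) % 340282366920938463463374607431768211456,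 (1519 * (q44 * 32768 + q04 * c4)) % 340282366920938463463374607431768211456, (520 * (q22 * c2)) % 340282366920938463463374607431768211456, (249 * (q23 * c1 + q13 * c2 + q12 * c3)) % 340282366920938463463374607431768211456, (332 * (q11 * c1)) % 340282366920938463463374607431768211456,
    ?_, ?_, ?_, ?_, ?_, ?_, ?_, ?_, ?_, ?_, ?_, ?_, ?_, ?_, ?_, ?_, ?_, ?_, ?_, ?_, ?_, ?_, ?_, h⟩
  all_goals
    rw [cast_mod hA]
    push_cast
    try first | rfl | norm_num

theorem l2_spec (hA : ((340282366920938463463374607431768211456 : ℕ) : A) = 0) {b1 b2 b3 b4 b5 b6 b7 b8 c1 c2 c3 c4 c5 c6 c7 c8 : ℕ} {t : List Row}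
    (h : l2 b1 b2 b3 b4 b5 b6 b7 b8 (Row.mk c1 c2 c3 c4 c5 c6 c7 c8) t = true) : ∃ q00 q04 q08 q11 q12 q13 q15 q16 q17 q22 q23 q24 q25 q26 q27 q33 q35 q36 q37 q44 q46 q55 q56 : ℕ,
    (q00 : A) = 32768 * 32768 ∧
    (q04 : A) = 32768 * (c4 : A) + (b4 : A) * 32768 ∧
    (q08 : A) = 32768 * (c8 : A) + (b8 : A) * 32768 ∧
    (q11 : A) = (b1 : A) * (c1 : A) ∧
    (q12 : A) = (b1 : A) * (c2 : A) + (b2 : A) * (c1 : A) ∧
    (q13 : A) = (b1 : A) * (c3 : A) + (b3 : A) * (c1 : A) ∧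
    (q15 : A) = (b1 : A) * (c5 : A) + (b5 : A) * (c1 : A) ∧
    (q16 : A) = (b1 : A) * (c6 : A) + (b6 : A) * (c1 : A) ∧
    (q17 : A) = (b1 : A) * (c7 : A) + (b7 : A) * (c1 : A) ∧
    (q22 : A) = (b2 : A) * (c2 : A) ∧
    (q23 : A) = (b2 : A) * (c3 : A) + (b3 : A) * (c2 : A) ∧
    (q24 : A) = (b2 : A) * (c4 : A) + (b4 : A) * (c2 : A) ∧
    (q25 : A) = (b2 : A) * (c5 : A) + (b5 : A) * (c2 : A) ∧
    (q26 : A) = (b2 : A) * (c6 : A) + (b6 : A) * (c2 : A) ∧
    (q27 : A) = (b2 : A) * (c7 : A) + (b7 : A) * (c2 : A) ∧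
    (q33 : A) = (b3 : A) * (c3 : A) ∧
    (q35 : A) = (b3 : A) * (c5 : A) + (b5 : A) * (c3 : A) ∧
    (q36 : A) = (b3 : A) * (c6 : A) + (b6 : A) * (c3 : A) ∧
    (q37 : A) = (b3 : A) * (c7 : A) + (b7 : A) * (c3 : A) ∧
    (q44 : A) = (b4 : A) * (c4 : A) ∧
    (q46 : A) = (b4 : A) * (c6 : A) + (b6 : A) * (c4 : A) ∧
    (q55 : A) = (b5 : A) * (c5 : A) ∧
    (q56 : A) = (b5 : A) * (c6 : A) + (b6 : A) * (c5 : A) ∧
    allSuf (l3 q00 q04 q08 q11 q12 q13 q15 q16 q17 q22 q23 q24 q25 q26 q27 q33 q35 q36 q37 q44 q46 q55 q56) (Row.mk c1 c2 c3 c4 c5 c6 c7 c8 :: t) = true := by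
  refine ⟨(32768 * 32768) % 340282366920938463463374607431768211456, (32768 * c4 + b4 * 32768) % 340282366920938463463374607431768211456, (32768 * c8 + b8 * 32768) % 340282366920938463463374607431768211456, (b1 * c1) % 340282366920938463463374607431768211456, (b1 * c2 + b2 * c1) % 340282366920938463463374607431768211456, (b1 * c3 + b3 * c1) % 340282366920938463463374607431768211456, (b1 * c5 + b5 * c1) % 340282366920938463463374607431768211456, (b1 * c6 + b6 * c1) % 340282366920938463463374607431768211456, (b1 * c7 + b7 * c1) % 340282366920938463463374607431768211456, (b2 * c2) % 340282366920938463463374607431768211456, (b2 * c3 + b3 * c2) % 340282366920938463463374607431768211456, (b2 * c4 + b4 * c2) % 340282366920938463463374607431768211456, (b2 * c5 + b5 * c2) % 340282366920938463463374607431768211456, (b2 * c6 + b6 * c2) % 340282366920938463463374607431768211456, (b2 * c7 + b7 * c2) % 340282366920938463463374607431768211456,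 (b3 * c3) % 340282366920938463463374607431768211456, (b3 * c5 + b5 * c3) % 340282366920938463463374607431768211456, (b3 * c6 + b6 * c3) % 340282366920938463463374607431768211456, (b3 * c7 + b7 * c3) % 340282366920938463463374607431768211456, (b4 * c4) % 340282366920938463463374607431768211456, (b4 * c6 + b6 * c4) % 340282366920938463463374607431768211456, (b5 * c5) % 340282366920938463463374607431768211456, (b5 * c6 + b6 * c5) % 340282366920938463463374607431768211456,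
    ?_, ?_, ?_, ?_, ?_, ?_, ?_, ?_, ?_, ?_, ?_, ?_, ?_, ?_, ?_, ?_, ?_, ?_, ?_, ?_, ?_, ?_, ?_, h⟩
  all_goals
    rw [cast_mod hA]
    push_cast
    try first | rfl | norm_num

end Pool.Agent.H90.Q5
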